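import Pool.Agent.Lib.MP_876e19_co_arc3.Cut5

/-!
# A connected cubic arc-transitive graph of diameter at least four has girth at least five
(MP_876e19_co)
-/

set_option autoImplicit false

namespace Pool.Agent.UPS.A3

open Finset Classical
open Pool.Agent.UPS2.EC

variable {V : Type*} [Fintype V] {G : SimpleGraph V}

/-- the neighbours of `v` -/
noncomputable def nb (G : SimpleGraph V) (v : V) : Finset V := univ.filter fun w => G.Adj v w

@[simp] lemma mem_nb (v w : V) : w ∈ nb G v ↔ G.Adj v w := by simp [nb]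

lemma card_nb (v : V) : (nb G v).card = dg G v := by
  unfold nb dg
  rw [Finset.card_filter]

/-- the sphere of radius `j` around `x` -/
noncomputable def sph (G : SimpleGraph V) (x : V) (j : ℕ) : Finset V :=
  univ.filter fun w => G.dist x w = j

@[simp] lemma mem_sph (x w : V) (j : ℕ) : w ∈ sph G x j ↔ G.dist x w = j := by simp [sph]

omit [Fintype V] in
lemma down (hc : G.Connected) {x v : V} {k : ℕ} (h : G.dist x v = k + 1) :
    ∃ u, G.Adj v u ∧ G.dist x u = k := by
  obtain ⟨w, hw⟩ := hc.exists_walk_length_eq_dist v x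
  rw [SimpleGraph.dist_comm, h] at hw
  cases w with
  | nil => simp at hw
  | cons hadj p =>
    rename_i u
    refine ⟨u, hadj, ?_⟩
    rw [SimpleGraph.Walk.length_cons] at hw
    have h1 : G.dist u x ≤ p.length := SimpleGraph.dist_le p
    have h2 : G.dist v x ≤ G.dist v u + G.dist u x := hc.dist_triangle
    have h3 : G.dist v u = 1 := SimpleGraph.dist_eq_one_iff_adj.2 hadj
    rw [SimpleGraph.dist_comm] at h1
    rw [SimpleGraph.dist_comm (u := v) (v := x), h, SimpleGraph.dist_comm (u := u) (v := x)] at h2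
    omega

omit [Fintype V] in
lemma dist_adj (hc : G.Connected) (x : V) {u v : V} (h : G.Adj u v) :
    G.dist x v ≤ G.dist x u + 1 := by
  have h2 : G.dist x v ≤ G.dist x u + G.dist u v := hc.dist_triangle
  rwa [SimpleGraph.dist_eq_one_iff_adj.2 h] at h2

/-- double counting of the edges between two sets -/
lemma dcount (S T : Finset V) : ∑ a ∈ S, (nb G a ∩ T).card = ∑ b ∈ T, (nb G b ∩ S).card := by
  have h1 : ∀ (S T : Finset V), ∑ a ∈ S, (nb G a ∩ T).card =
      ∑ a ∈ S, ∑ b ∈ T, if G.Adj a b then 1 else 0 := by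
    intro S T
    refine Finset.sum_congr rfl fun a _ => ?_
    rw [← Finset.card_filter]
    congr 1
    ext b
    simp [and_comm]
  rw [h1, h1, Finset.sum_comm]
  refine Finset.sum_congr rfl fun b _ => Finset.sum_congr rfl fun a _ => ?_
  rw [G.adj_comm]

/-- automorphisms preserve the number of common neighbours -/
lemma card_common_map (f : G ≃g G) (u v : V) :
    (nb G (f u) ∩ nb G (f v)).card = (nb G u ∩ nb G v).card := by
  symm
  refine Finset.card_bij (fun w _ => f w) ?_ ?_ ?_
  · intro w hw
    rw [Finset.mem_inter, mem_nb, mem_nb] at hw ⊢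
    exact ⟨f.map_adj_iff.2 hw.1, f.map_adj_iff.2 hw.2⟩
  · intro a _ b _ h
    exact f.injective h
  · intro w hw
    rw [Finset.mem_inter, mem_nb, mem_nb] at hw
    refine ⟨f.symm w, ?_, f.apply_symm_apply w⟩
    rw [Finset.mem_inter, mem_nb, mem_nb]
    constructor
    · rw [← f.map_adj_iff, f.apply_symm_apply]; exact hw.1
    · rw [← f.map_adj_iff, f.apply_symm_apply]; exact hw.2

/-- no triangle -/
theorem noC3 (hc : G.Connected) (harc : ArcT G) (hd : ∀ v, dg G v = 3) {x y : V}
    (hxy : 2 ≤ G.dist x y) : NoC3 G := by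
  intro a b c hab hbc hac
  -- every arc has the same number of common neighbours
  have hconst : ∀ u v : V, G.Adj u v → (nb G u ∩ nb G v).card = (nb G a ∩ nb G b).card := by
    intro u v huv
    obtain ⟨f, hf1, hf2⟩ := harc a b u v hab huv
    rw [← hf1, ← hf2, card_common_map]
  have hpos : 1 ≤ (nb G a ∩ nb G b).card := by
    refine Finset.card_pos.2 ⟨c, ?_⟩
    rw [Finset.mem_inter, mem_nb, mem_nb]
    exact ⟨hac, hbc⟩
  have hdgI : ∀ v ∈ nb G x, dgI G (nb G x) v = (nb G a ∩ nb G b).card := by
    intro v hv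
    rw [mem_nb] at hv
    rw [← hconst v x hv.symm]
    unfold dgI
    rw [← Finset.card_filter]
    congr 1
    ext w
    simp [and_comm]
  have hev := even_dgI (G := G) (nb G x)
  rw [Finset.sum_congr rfl hdgI, Finset.sum_const, card_nb, hd, smul_eq_mul] at hev
  have ht : (nb G a ∩ nb G b).card = 2 := by
    obtain ⟨v, hv⟩ : (nb G x).Nonempty := by
      rw [← Finset.card_pos, card_nb, hd]
      norm_num
    have h1 := dgI_lt_card (G := G) hv
    rw [hdgI v hv, card_nb, hd] at h1
    obtain ⟨r, hr⟩ := hev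
    omega
  -- the closed neighbourhood of `x` has no leaving edge
  have hcl : ∀ v ∈ nb G x, ∀ w, G.Adj v w → w = x ∨ w ∈ nb G x := by
    intro v hv w hvw
    by_contra hcon
    push Not at hcon
    have hvx : G.Adj x v := (mem_nb _ _).1 hv
    have hsub : insert x (insert w (nb G v ∩ nb G x)) ⊆ nb G v := by
      intro z hz
      rw [Finset.mem_insert, Finset.mem_insert] at hz
      rcases hz with rfl | rfl | hz
      · rw [mem_nb]; exact hvx.symm
      · rw [mem_nb]; exact hvw
      · exact (Finset.mem_inter.1 hz).1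
    have h1 := Finset.card_le_card hsub
    have hwn : w ∉ nb G v ∩ nb G x := fun h => hcon.2 (Finset.mem_inter.1 h).2
    have hxn : x ∉ insert w (nb G v ∩ nb G x) := by
      rw [Finset.mem_insert]
      rintro (h | h)
      · exact hcon.1 h.symm
      · have := (Finset.mem_inter.1 h).2
        rw [mem_nb] at this
        exact G.loopless.irrefl x this
    rw [Finset.card_insert_of_notMem hxn, Finset.card_insert_of_notMem hwn, card_nb, hd,
      hconst v x hvx.symm, ht] at h1
    omega
  obtain ⟨k, hk⟩ : ∃ k, G.dist x y = k + 2 := ⟨G.dist x y - 2, by omega⟩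
  -- a vertex at distance two
  have hall : ∀ (k : ℕ) (y : V), G.dist x y ≤ k → G.dist x y ≤ 1 := by
    intro k
    induction k with
    | zero => intro y h; omega
    | succ k ih =>
      intro y h
      rcases Nat.lt_or_ge (G.dist x y) (k + 1) with h' | h'
      · exact ih y (by omega)
      · obtain ⟨u, hu1, hu2⟩ := down (G := G) hc (x := x) (v := y) (k := k) (by omega)
        have hu3 := ih u (by omega)
        rcases Nat.lt_or_ge (G.dist x u) 1 with h0 | h0
        · omega
        · have hu4 : u ∈ nb G x := by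
            rw [mem_nb, ← SimpleGraph.dist_eq_one_iff_adj]
            omega
          rcases hcl u hu4 y hu1.symm with h5 | h5
          · rw [h5]; simp
          · rw [mem_nb, ← SimpleGraph.dist_eq_one_iff_adj] at h5
            omega
  have := hall _ y le_rfl
  omega

/-- the third neighbour -/
lemma third (hd : ∀ v, dg G v = 3) {v b c : V} (hb : G.Adj v b) (hc : G.Adj v c) (hbc : b ≠ c) :
    ∃ a, G.Adj v a ∧ a ≠ b ∧ a ≠ c ∧ ∀ w, G.Adj v w → w ≠ a → w = b ∨ w = c := by
  have hsub : ({b, c} : Finset V) ⊆ nb G v := by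
    intro z hz
    rw [Finset.mem_insert, Finset.mem_singleton] at hz
    rcases hz with rfl | rfl
    · exact (mem_nb _ _).2 hb
    · exact (mem_nb _ _).2 hc
  have h1 : (nb G v \ {b, c}).card = 1 := by
    rw [Finset.card_sdiff_of_subset hsub, card_nb, hd, Finset.card_pair hbc]
  obtain ⟨a, ha⟩ := Finset.card_eq_one.1 h1
  have ha' : a ∈ nb G v \ {b, c} := by rw [ha]; exact Finset.mem_singleton_self a
  rw [Finset.mem_sdiff, mem_nb, Finset.mem_insert, Finset.mem_singleton, not_or] at ha'
  refine ⟨a, ha'.1, ha'.2.1, ha'.2.2, fun w hw hwa => ?_⟩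
  by_contra hcon
  have : w ∈ nb G v \ {b, c} := by
    rw [Finset.mem_sdiff, mem_nb, Finset.mem_insert, Finset.mem_singleton]
    exact ⟨hw, hcon⟩
  rw [ha, Finset.mem_singleton] at this
  exact hwa this

/-- in an arc-transitive cubic graph with a 4-cycle any two neighbours `b`, `c` of a vertex `v` have
a second common neighbour -/
lemma second (harc : ArcT G) (hd : ∀ v, dg G v = 3) {a0 b0 c0 d0 : V} (hac : a0 ≠ c0)
    (hbd : b0 ≠ d0) (h1 : G.Adj a0 b0) (h2 : G.Adj b0 c0) (h3 : G.Adj c0 d0) (h4 : G.Adj d0 a0)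
    {v b c : V} (hb : G.Adj v b) (hc : G.Adj v c) (hbc : b ≠ c) :
    ∃ p, p ≠ v ∧ G.Adj b p ∧ G.Adj c p := by
  obtain ⟨a, ha1, ha2, ha3, ha4⟩ := third hd hb hc hbc
  -- at `a0` the two neighbours `b0`, `d0` have the second common neighbour `c0`
  obtain ⟨e, he1, he2, he3, he4⟩ := third hd h1 h4.symm hbd
  obtain ⟨f, hf1, hf2⟩ := harc a0 e v a he1 ha1
  refine ⟨f c0, ?_, ?_, ?_⟩
  · rw [← hf1]
    exact fun h => hac (f.injective h).symm
  · -- `b = f b0` or `b = f d0`
    have : f.symm b ≠ e := by
      intro h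
      apply ha2
      rw [← hf2, ← h, f.apply_symm_apply]
    have hadj : G.Adj a0 (f.symm b) := by
      rw [← f.map_adj_iff, f.apply_symm_apply, hf1]; exact hb
    rcases he4 _ hadj this with h | h
    · rw [← f.apply_symm_apply b, h, f.map_adj_iff]; exact h2
    · rw [← f.apply_symm_apply b, h, f.map_adj_iff]; exact h3.symm
  · have : f.symm c ≠ e := by
      intro h
      apply ha3
      rw [← hf2, ← h, f.apply_symm_apply]
    have hadj : G.Adj a0 (f.symm c) := by
      rw [← f.map_adj_iff, f.apply_symm_apply, hf1]; exact hc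
    rcases he4 _ hadj this with h | h
    · rw [← f.apply_symm_apply c, h, f.map_adj_iff]; exact h2
    · rw [← f.apply_symm_apply c, h, f.map_adj_iff]; exact h3.symm

/-- no 4-cycle -/
theorem noC4 (hc : G.Connected) (harc : ArcT G) (hd : ∀ v, dg G v = 3) {x y : V}
    (hxy : 4 ≤ G.dist x y) : NoC4 G := by
  intro a b c d hac hbd h1 h2 h3 h4
  -- a vertex at distance exactly four
  obtain ⟨u, hu⟩ : ∃ u, G.dist x u = 4 := by
    have : ∀ (k : ℕ) (y : V), G.dist x y = k + 4 → ∃ u, G.dist x u = 4 := by
      intro k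
      induction k with
      | zero => intro y h; exact ⟨y, by omega⟩
      | succ k ih =>
        intro y h
        obtain ⟨w, _, hw⟩ := down (G := G) hc (x := x) (v := y) (k := k + 4) (by omega)
        exact ih w hw
    exact this (G.dist x y - 4) y (by omega)
  have sec : ∀ {v b' c' : V}, G.Adj v b' → G.Adj v c' → b' ≠ c' →
      ∃ p, p ≠ v ∧ G.Adj b' p ∧ G.Adj c' p := fun hb hc' hbc =>
    second harc hd hac hbd h1 h2 h3 h4 hb hc' hbc
  -- general: every vertex at distance `k + 2` has two neighbours at distance `k + 1`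
  have two : ∀ (k : ℕ) (w : V), G.dist x w = k + 2 → ∃ p q, p ≠ q ∧ G.Adj w p ∧ G.Adj w q ∧
      G.dist x p = k + 1 ∧ G.dist x q = k + 1 := by
    intro k w hw
    obtain ⟨p, hp1, hp2⟩ := down (G := G) hc (x := x) (v := w) (k := k + 1) (by omega)
    obtain ⟨e, he1, he2⟩ := down (G := G) hc (x := x) (v := p) (k := k) hp2
    have hew : e ≠ w := by rintro rfl; omega
    obtain ⟨q, hq1, hq2, hq3⟩ := sec he1 hp1.symm hew
    refine ⟨p, q, hq1.symm, hp1, hq3, hp2, ?_⟩
    have g1 := dist_adj (G := G) hc x hq2
    have g2 := dist_adj (G := G) hc x hq3.symm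
    omega
  have two' : ∀ (k : ℕ) (w : V), w ∈ sph G x (k + 2) →
      2 ≤ (nb G w ∩ sph G x (k + 1)).card := by
    intro k w hw
    rw [mem_sph] at hw
    obtain ⟨p, q, hpq, hp1, hq1, hp2, hq2⟩ := two k w hw
    rw [← Finset.card_pair hpq]
    apply Finset.card_le_card
    intro z hz
    rw [Finset.mem_insert, Finset.mem_singleton] at hz
    rcases hz with rfl | rfl
    · rw [Finset.mem_inter, mem_nb, mem_sph]; exact ⟨hp1, hp2⟩
    · rw [Finset.mem_inter, mem_nb, mem_sph]; exact ⟨hq1, hq2⟩
  -- the first sphere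
  have hs1 : (sph G x 1).card = 3 := by
    rw [← hd x, ← card_nb]
    congr 1
    ext w
    rw [mem_sph, mem_nb, SimpleGraph.dist_eq_one_iff_adj]
  have c1 := dcount (G := G) (sph G x 1) (sph G x 2)
  have c2 := dcount (G := G) (sph G x 2) (sph G x 3)
  have u1 : ∑ a ∈ sph G x 1, (nb G a ∩ sph G x 2).card ≤ (sph G x 1).card * 2 := by
    refine Finset.sum_le_card_nsmul _ _ _ fun e he => ?_
    have : nb G e ∩ sph G x 2 ⊆ (nb G e).erase x := by
      intro z hz
      rw [Finset.mem_inter, mem_sph] at hz
      rw [Finset.mem_erase]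
      refine ⟨?_, hz.1⟩
      rintro rfl
      simp at hz
    have h5 := Finset.card_le_card this
    rw [mem_sph, SimpleGraph.dist_eq_one_iff_adj] at he
    rw [Finset.card_erase_of_mem ((mem_nb _ _).2 he.symm), card_nb, hd] at h5
    exact h5
  have l1 : (sph G x 2).card * 2 ≤ ∑ b ∈ sph G x 2, (nb G b ∩ sph G x 1).card := by
    refine Finset.card_nsmul_le_sum _ _ _ fun e he => two' 0 e he
  have u2 : ∑ a ∈ sph G x 2, (nb G a ∩ sph G x 3).card ≤ (sph G x 2).card * 1 := by
    refine Finset.sum_le_card_nsmul _ _ _ fun e he => ?_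
    have h6 := two' 0 e he
    have hdisj : Disjoint (nb G e ∩ sph G x 1) (nb G e ∩ sph G x 3) := by
      rw [Finset.disjoint_left]
      intro z hz hz'
      rw [Finset.mem_inter, mem_sph] at hz hz'
      omega
    have h7 : (nb G e ∩ sph G x 1) ∪ (nb G e ∩ sph G x 3) ⊆ nb G e :=
      Finset.union_subset Finset.inter_subset_left Finset.inter_subset_left
    have h8 := Finset.card_le_card h7
    rw [Finset.card_union_of_disjoint hdisj, card_nb, hd] at h8
    change 2 ≤ (nb G e ∩ sph G x 1).card at h6
    omega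
  have l2 : (sph G x 3).card * 2 ≤ ∑ b ∈ sph G x 3, (nb G b ∩ sph G x 2).card := by
    refine Finset.card_nsmul_le_sum _ _ _ fun e he => two' 1 e he
  have l3 : 2 ≤ (sph G x 3).card := by
    have h6 := two' 2 u (by rw [mem_sph]; exact hu)
    exact h6.trans (Finset.card_le_card Finset.inter_subset_right)
  omega

/-- **step 0**: girth at least five and at least twelve vertices -/
theorem girth5 (hc : G.Connected) (harc : ArcT G) (hd : ∀ v, dg G v = 3) {x y : V}
    (hxy : 4 ≤ G.dist x y) :
    NoC3 G ∧ NoC4 G ∧ (∀ a b c : V, G.Adj a b → G.Adj b c → a ≠ c →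
      G.dist a c = 2 ∧ ∀ b', G.Adj a b' → G.Adj b' c → b' = b) ∧ 12 ≤ Fintype.card V := by
  have h3 := noC3 hc harc hd (show 2 ≤ G.dist x y by omega)
  have h4 := noC4 hc harc hd hxy
  refine ⟨h3, h4, ?_, ?_⟩
  · intro a b c hab hbc hac
    constructor
    · have g1 : G.dist a c ≤ 2 := by
        have := dist_adj (G := G) hc a hbc
        rw [SimpleGraph.dist_eq_one_iff_adj.2 hab] at this
        exact this
      have g2 : G.dist a c ≠ 0 := by
        rw [Ne, hc.dist_eq_zero_iff]
        exact hac
      have g3 : G.dist a c ≠ 1 := by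
        rw [Ne, SimpleGraph.dist_eq_one_iff_adj]
        exact fun h => h3 a b c hab hbc h
      omega
    · intro b' hab' hbc'
      by_contra hne
      exact h4 a b c b' hac (Ne.symm hne) hab hbc hbc'.symm hab'.symm
  · have hs0 : (sph G x 0).card = 1 := by
      rw [Finset.card_eq_one]
      refine ⟨x, ?_⟩
      ext w
      rw [mem_sph, hc.dist_eq_zero_iff, Finset.mem_singleton]
      exact eq_comm
    have hs1 : (sph G x 1).card = 3 := by
      rw [← hd x, ← card_nb]
      congr 1
      ext w
      rw [mem_sph, mem_nb, SimpleGraph.dist_eq_one_iff_adj]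
    have hs2 : 6 ≤ (sph G x 2).card := by
      have c1 := dcount (G := G) (sph G x 1) (sph G x 2)
      have l1 : (sph G x 1).card * 2 ≤ ∑ a ∈ sph G x 1, (nb G a ∩ sph G x 2).card := by
        refine Finset.card_nsmul_le_sum (sph G x 1) (fun a => (nb G a ∩ sph G x 2).card) 2
          fun e he => ?_
        change 2 ≤ (nb G e ∩ sph G x 2).card
        rw [mem_sph, SimpleGraph.dist_eq_one_iff_adj] at he
        have : (nb G e).erase x ⊆ nb G e ∩ sph G x 2 := by
          intro z hz
          rw [Finset.mem_erase, mem_nb] at hz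
          rw [Finset.mem_inter, mem_nb, mem_sph]
          refine ⟨hz.2, ?_⟩
          have g1 := dist_adj (G := G) hc x hz.2
          rw [SimpleGraph.dist_eq_one_iff_adj.2 he] at g1
          have g2 : G.dist x z ≠ 0 := by
            rw [Ne, hc.dist_eq_zero_iff]
            exact fun h => hz.1 h.symm
          have g3 : G.dist x z ≠ 1 := by
            rw [Ne, SimpleGraph.dist_eq_one_iff_adj]
            exact fun h => h3 x e z he hz.2 h
          omega
        have h5 := Finset.card_le_card this
        rw [Finset.card_erase_of_mem ((mem_nb _ _).2 he.symm), card_nb, hd] at h5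
        exact h5
      have u1 : ∑ b ∈ sph G x 2, (nb G b ∩ sph G x 1).card ≤ (sph G x 2).card * 1 := by
        refine Finset.sum_le_card_nsmul _ _ _ fun p hp => ?_
        rw [Finset.card_le_one]
        intro s hs t ht
        rw [Finset.mem_inter, mem_nb, mem_sph, SimpleGraph.dist_eq_one_iff_adj] at hs ht
        by_contra hne
        have hxp : x ≠ p := by
          rintro rfl
          rw [mem_sph] at hp
          simp at hp
        exact h4 x s p t hxp hne hs.2 hs.1.symm ht.1 ht.2.symm
      omega
    obtain ⟨u, hu⟩ : ∃ u, G.dist x u = 4 := by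
      have : ∀ (k : ℕ) (y : V), G.dist x y = k + 4 → ∃ u, G.dist x u = 4 := by
        intro k
        induction k with
        | zero => intro y h; exact ⟨y, by omega⟩
        | succ k ih =>
          intro y h
          obtain ⟨w, _, hw⟩ := down (G := G) hc (x := x) (v := y) (k := k + 4) (by omega)
          exact ih w hw
      exact this (G.dist x y - 4) y (by omega)
    obtain ⟨w, _, hw⟩ := down (G := G) hc (x := x) (v := u) (k := 3) hu
    have hs4 : 1 ≤ (sph G x 4).card := Finset.card_pos.2 ⟨u, (mem_sph _ _ _).2 hu⟩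
    have hs3 : 1 ≤ (sph G x 3).card := Finset.card_pos.2 ⟨w, (mem_sph _ _ _).2 hw⟩
    have hdis : (univ : Finset V).card ≥ ∑ j ∈ Finset.range 5, (sph G x j).card := by
      rw [← Finset.card_biUnion]
      · exact Finset.card_le_card (Finset.subset_univ _)
      · intro i _ j _ hij
        change Disjoint (sph G x i) (sph G x j)
        rw [Finset.disjoint_left]
        intro z hz hz'
        rw [mem_sph] at hz hz'
        exact hij (hz.symm.trans hz')
    rw [Finset.card_univ] at hdis
    simp only [Finset.sum_range_succ, Finset.sum_range_zero] at hdis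
    omega

end Pool.Agent.UPS.A3
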