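import Pool.Agent.Lib.MP_876e19_co_arc3.Cut5

/-!
# Inequality (I): `3 ∑_e z(e)^2 ≤ (∑_e |z(e)|)^2`, `z(uw) = y(u) + y(w)` (MP_876e19_co)

for every real `y` on the vertices of a connected cubic arc-transitive graph without triangles and
4-cycles.
-/

set_option autoImplicit false

namespace Pool.Agent.UPS.A3

open Finset Classical
open Pool.Agent.UPS2.EC

variable {V : Type*} {G : SimpleGraph V}

lemma DC_arcT (harc : ArcT G) : ArcT (DC G) := by
  rintro ⟨a, s⟩ ⟨b, t⟩ ⟨a', s'⟩ ⟨b', t'⟩ ⟨h1, h2⟩ ⟨h3, h4⟩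
  obtain ⟨f, hfa, hfb⟩ := harc a b a' b' h1 h3
  refine ⟨DC_aut f (xor s s'), ?_, ?_⟩
  · change (f a, xor s (xor s s')) = (a', s')
    rw [hfa]
    cases s <;> cases s' <;> rfl
  · change (f b, xor t (xor s s')) = (b', t')
    rw [hfb]
    change s ≠ t at h2
    change s' ≠ t' at h4
    cases s <;> cases t <;> cases s' <;> cases t' <;> simp_all

lemma DC_noC4 (h4 : NoC4 G) : NoC4 (DC G) := by
  rintro ⟨a, s⟩ ⟨b, t⟩ ⟨c, u⟩ ⟨d, v⟩ hac hbd ⟨h1, g1⟩ ⟨h2, g2⟩ ⟨h3, g3⟩ ⟨h4', g4⟩
  change s ≠ t at g1
  change t ≠ u at g2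
  change u ≠ v at g3
  have hsu : s = u := by cases s <;> cases t <;> cases u <;> simp_all
  have htv : t = v := by cases t <;> cases u <;> cases v <;> simp_all
  refine h4 a b c d ?_ ?_ h1 h2 h3 h4'
  · rintro rfl; exact hac (by rw [hsu])
  · rintro rfl; exact hbd (by rw [htv])

lemma even_card [Fintype V] (hd : ∀ v, dg G v = 3) : Even (Fintype.card V) := by
  have h := even_dgI (G := G) univ
  have h1 : ∀ v, dgI G univ v = 3 := by
    intro v
    rw [← hd v]
    unfold dgI dg
    simp
  rw [Finset.sum_congr rfl fun v _ => h1 v] at h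
  simp only [sum_const, smul_eq_mul, Finset.card_univ] at h
  rw [Nat.even_mul] at h
  rcases h with h | h
  · exact h
  · exact absurd h (by decide)

/-- integer form for `y : V → {-1,0,1}`, non-bipartite graph -/
theorem nonbip_int [Fintype V] (hc : G.Connected) (hodd : OddW G) (harc : ArcT G)
    (hd : ∀ v, dg G v = 3) (h4 : NoC4 G) (y : V → ℤ)
    (hy : ∀ v, y v = -1 ∨ y v = 0 ∨ y v = 1) : 6 * L2 G y ≤ (L1 G y) ^ 2 := by
  have hvt : VT G := harc.vt hd
  set i2 : ℕ := ∑ p : V × V, if G.Adj p.1 p.2 ∧ |y p.1 + y p.2| = 2 then 1 else 0 with hi2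
  set o2 : ℕ := ∑ p : V × V, if G.Adj p.1 p.2 ∧ |y p.1 + y p.2| = 1 then 1 else 0 with ho2
  have hL1 : L1 G y = 2 * i2 + o2 := by
    rw [hi2, ho2]
    unfold L1
    push_cast
    rw [Finset.mul_sum, ← Finset.sum_add_distrib]
    refine Finset.sum_congr rfl fun p _ => ?_
    by_cases h : G.Adj p.1 p.2
    · rcases hy p.1 with h1 | h1 | h1 <;> rcases hy p.2 with h2 | h2 | h2 <;> simp [h, h1, h2]
    · simp [h]
  have hL2 : L2 G y = 4 * i2 + o2 := by
    rw [hi2, ho2]
    unfold L2
    push_cast
    rw [Finset.mul_sum, ← Finset.sum_add_distrib]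
    refine Finset.sum_congr rfl fun p _ => ?_
    by_cases h : G.Adj p.1 p.2
    · rcases hy p.1 with h1 | h1 | h1 <;> rcases hy p.2 with h2 | h2 | h2 <;> simp [h, h1, h2]
    · simp [h]
  set T : Finset V := univ.filter fun v => y v ≠ 0 with hT
  have ho : o2 = 2 * cut G T := by
    have e1 : (cut G T) = ∑ p : V × V, if p.2 ∈ T ∧ p.1 ∉ T ∧ G.Adj p.1 p.2 then 1 else 0 := by
      unfold cut
      rw [← Equiv.sum_comp (Equiv.prodComm V V)]
      refine Finset.sum_congr rfl fun p _ => ?_
      simp only [Equiv.prodComm_apply, Prod.fst_swap, Prod.snd_swap]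
      exact if_congr ⟨fun h => ⟨h.1, h.2.1, h.2.2.symm⟩, fun h => ⟨h.1, h.2.1, h.2.2.symm⟩⟩ rfl rfl
    rw [two_mul]
    conv_rhs => arg 2; rw [e1]
    rw [ho2]
    unfold cut
    rw [← Finset.sum_add_distrib]
    refine Finset.sum_congr rfl fun p _ => ?_
    have m1 : p.1 ∈ T ↔ y p.1 ≠ 0 := by simp [hT]
    have m2 : p.2 ∈ T ↔ y p.2 ≠ 0 := by simp [hT]
    simp only [m1, m2]
    by_cases h : G.Adj p.1 p.2
    · rcases hy p.1 with h1 | h1 | h1 <;> rcases hy p.2 with h2 | h2 | h2 <;> simp [h, h1, h2]
    · simp [h]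
  rw [hL1, hL2]
  by_cases hT0 : T.Nonempty
  swap
  · -- `y = 0`
    rw [Finset.not_nonempty_iff_eq_empty] at hT0
    have hy0 : ∀ v, y v = 0 := by
      intro v
      by_contra hcon
      have : v ∈ T := by simp [hT, hcon]
      rw [hT0] at this
      simp at this
    have e1 : i2 = 0 := by
      rw [hi2]
      exact Finset.sum_eq_zero fun p _ => by simp [hy0]
    have e2 : o2 = 0 := by
      rw [ho2]
      exact Finset.sum_eq_zero fun p _ => by simp [hy0]
    rw [e1, e2]
    norm_num
  by_cases hT1 : T = univ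
  · have hne : ∀ v, y v ≠ 0 := by
      intro v
      have : v ∈ T := hT1 ▸ mem_univ v
      rw [hT, Finset.mem_filter] at this
      exact this.2
    have e2 : o2 = 0 := by
      rw [ho, hT1]
      have : cut G (univ : Finset V) = 0 := by
        unfold cut
        exact Finset.sum_eq_zero fun p _ => by simp
      rw [this]
    -- the double cover
    have hDc := DC_connected hc hodd
    have hDd : ∀ v, dg (DC G) v = 3 := fun v => by
      obtain ⟨v, s⟩ := v; rw [DC_dg]; exact hd v
    have hcard : (SY y).card = Fintype.card V := by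
      rw [← Finset.card_univ]
      refine Finset.card_bij (fun p _ => p.1) (fun _ _ => mem_univ _) ?_ ?_
      · rintro ⟨a, s⟩ ha ⟨b, t⟩ hb hab
        change a = b at hab
        subst hab
        cases s <;> cases t
        · rfl
        · rw [mem_SY_false] at ha; rw [mem_SY_true] at hb; omega
        · rw [mem_SY_true] at ha; rw [mem_SY_false] at hb; omega
        · rfl
      · intro a _
        rcases hy a with h | h | h
        · exact ⟨(a, false), (mem_SY_false y a).2 h, rfl⟩
        · exact absurd h (hne a)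
        · exact ⟨(a, true), (mem_SY_true y a).2 h, rfl⟩
    have hn3 : 3 ≤ Fintype.card V := by
      obtain ⟨v, _⟩ := hT0
      have h1 := dgI_lt_card (G := G) (A := univ) (v := v) (mem_univ v)
      have h2 : dgI G univ v = 3 := by
        rw [← hd v]
        unfold dgI dg
        simp
      rw [Finset.card_univ] at h1
      omega
    have h5 := cut5' hDc (DC_arcT harc) hDd DC_tri (DC_noC4 h4) (S := SY y) (by omega)
      (by rw [hcard, Fintype.card_prod, Fintype.card_bool]; omega)
    have hpar := cut_add_sum hDd (SY y)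
    obtain ⟨r, hr⟩ := even_dgI (G := DC G) (SY y)
    obtain ⟨k, hk⟩ := even_card hd
    have h6 : 6 ≤ cut (DC G) (SY y) := by omega
    have hL1' := L1_eq (G := G) y hy
    rw [hL1, e2] at hL1'
    have h7 : 6 ≤ i2 := by
      have : (i2 : ℤ) = (cut (DC G) (SY y) : ℤ) := by push_cast at hL1'; linarith
      have : i2 = cut (DC G) (SY y) := by exact_mod_cast this
      omega
    rw [e2]
    have h8 : (6 : ℤ) ≤ i2 := by exact_mod_cast h7
    push_cast
    nlinarith
  · have h9 := edge_conn hc hvt hd hT0 hT1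
    have h10 : 6 ≤ o2 := by omega
    have h11 : (6 : ℤ) ≤ o2 := by exact_mod_cast h10
    have h12 : (0 : ℤ) ≤ i2 := Nat.cast_nonneg _
    nlinarith [mul_nonneg h12 (sub_nonneg.2 h11), mul_nonneg (sub_nonneg.2 h11) (sub_nonneg.2 h11)]

/-- `ℓ¹` norm over ordered adjacent pairs -/
noncomputable def A1 [Fintype V] (G : SimpleGraph V) (y : V → ℝ) : ℝ :=
  ∑ p : V × V, if G.Adj p.1 p.2 then |y p.1 + y p.2| else 0

/-- squared `ℓ²` norm over ordered adjacent pairs -/
noncomputable def Q2 [Fintype V] (G : SimpleGraph V) (y : V → ℝ) : ℝ :=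
  ∑ p : V × V, if G.Adj p.1 p.2 then (y p.1 + y p.2) ^ 2 else 0

lemma A1_nonneg [Fintype V] (y : V → ℝ) : 0 ≤ A1 G y :=
  Finset.sum_nonneg fun p _ => by split_ifs <;> positivity

lemma Q2_nonneg [Fintype V] (y : V → ℝ) : 0 ≤ Q2 G y :=
  Finset.sum_nonneg fun p _ => by split_ifs <;> positivity

/-- layer-cake induction: an inequality `c ∑ z^2 ≤ (∑ |z|)^2` for all `y : V → {-1,0,1}` holds for
all real `y` -/
theorem layer [Fintype V] (c : ℝ) (hc0 : 0 ≤ c)
    (H : ∀ s : V → ℝ, (∀ v, s v = -1 ∨ s v = 0 ∨ s v = 1) → c * Q2 G s ≤ (A1 G s) ^ 2)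
    (y : V → ℝ) : c * Q2 G y ≤ (A1 G y) ^ 2 := by
  suffices H2 : ∀ (k : ℕ) (y : V → ℝ),
      ((univ.image fun v => |y v|).filter fun t => t ≠ 0).card ≤ k → c * Q2 G y ≤ (A1 G y) ^ 2 from
    H2 _ y le_rfl
  clear y
  intro k
  induction k with
  | zero =>
    intro y hy
    have hy0 : ∀ v, y v = 0 := by
      intro v
      by_contra hcon
      have : |y v| ∈ (univ.image fun v => |y v|).filter fun t => t ≠ 0 := by
        rw [Finset.mem_filter]
        exact ⟨Finset.mem_image_of_mem (fun v => |y v|) (mem_univ v), abs_ne_zero.2 hcon⟩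
      have := Finset.card_pos.2 ⟨_, this⟩
      omega
    have h1 : Q2 G y = 0 := by
      unfold Q2
      exact Finset.sum_eq_zero fun p _ => by simp [hy0]
    rw [h1, mul_zero]
    positivity
  | succ k ih =>
    intro y hy
    by_cases hzero : ∀ v, y v = 0
    · have h1 : Q2 G y = 0 := by
        unfold Q2
        exact Finset.sum_eq_zero fun p _ => by simp [hzero]
      rw [h1, mul_zero]
      positivity
    push Not at hzero
    obtain ⟨v0, hv0⟩ := hzero
    obtain ⟨vm, _, hvm⟩ := Finset.exists_max_image univ (fun v => |y v|) ⟨v0, mem_univ v0⟩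
    set m : ℝ := |y vm| with hm
    have hmpos : 0 < m := (abs_pos.2 hv0).trans_le (hvm v0 (mem_univ v0))
    let f : V → ℝ := fun v => if |y v| = m then 0 else |y v|
    obtain ⟨vn, _, hvn⟩ := Finset.exists_max_image univ f ⟨v0, mem_univ v0⟩
    set m' : ℝ := f vn with hm'
    have hm'0 : 0 ≤ m' := by
      rw [hm']
      change 0 ≤ if |y vn| = m then 0 else |y vn|
      split_ifs
      · exact le_rfl
      · exact abs_nonneg _
    have hm'm : m' < m := by
      rw [hm']
      change (if |y vn| = m then 0 else |y vn|) < m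
      split_ifs with h
      · exact hmpos
      · exact lt_of_le_of_ne (hvm vn (mem_univ vn)) h
    have hlow : ∀ v, |y v| ≠ m → |y v| ≤ m' := by
      intro v hv
      have := hvn v (mem_univ v)
      change (if |y v| = m then 0 else |y v|) ≤ m' at this
      rwa [if_neg hv] at this
    let s : V → ℝ := fun v => if y v = m then 1 else if y v = -m then -1 else 0
    let y' : V → ℝ := fun v => if y v = m then m' else if y v = -m then -m' else y v
    have hs : ∀ v, s v = -1 ∨ s v = 0 ∨ s v = 1 := by
      intro v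
      change (if y v = m then (1 : ℝ) else if y v = -m then -1 else 0) = -1 ∨
        (if y v = m then (1 : ℝ) else if y v = -m then -1 else 0) = 0 ∨
        (if y v = m then (1 : ℝ) else if y v = -m then -1 else 0) = 1
      split_ifs <;> simp
    have hcases : ∀ v, (y v = m ∧ s v = 1 ∧ y' v = m') ∨ (y v = -m ∧ s v = -1 ∧ y' v = -m') ∨
        (|y v| ≤ m' ∧ s v = 0 ∧ y' v = y v) := by
      intro v
      by_cases h1 : y v = m
      · left
        refine ⟨h1, ?_, ?_⟩
        · change (if y v = m then (1 : ℝ) else if y v = -m then -1 else 0) = 1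
          rw [if_pos h1]
        · change (if y v = m then m' else if y v = -m then -m' else y v) = m'
          rw [if_pos h1]
      · right
        by_cases h2 : y v = -m
        · left
          refine ⟨h2, ?_, ?_⟩
          · change (if y v = m then (1 : ℝ) else if y v = -m then -1 else 0) = -1
            rw [if_neg h1, if_pos h2]
          · change (if y v = m then m' else if y v = -m then -m' else y v) = -m'
            rw [if_neg h1, if_pos h2]
        · right
          refine ⟨hlow v ?_, ?_, ?_⟩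
          · intro h
            rcases (abs_eq hmpos.le).1 h with h | h
            · exact h1 h
            · exact h2 h
          · change (if y v = m then (1 : ℝ) else if y v = -m then -1 else 0) = 0
            rw [if_neg h1, if_neg h2]
          · change (if y v = m then m' else if y v = -m then -m' else y v) = y v
            rw [if_neg h1, if_neg h2]
    -- additivity of the absolute values
    have hadd : ∀ u w, |y u + y w| = |y' u + y' w| + (m - m') * |s u + s w| := by
      intro u w
      rcases hcases u with ⟨a1, a2, a3⟩ | ⟨a1, a2, a3⟩ | ⟨a1, a2, a3⟩ <;>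
        rcases hcases w with ⟨b1, b2, b3⟩ | ⟨b1, b2, b3⟩ | ⟨b1, b2, b3⟩ <;>
        rw [a2, a3, b2, b3]
      · rw [a1, b1, abs_of_pos (by linarith), abs_of_nonneg (by linarith),
          abs_of_pos (by norm_num)]
        ring
      · rw [a1, b1]; simp
      · obtain ⟨c1, c2⟩ := abs_le.1 b1
        rw [a1, abs_of_nonneg (by linarith), abs_of_nonneg (by linarith), abs_of_pos (by norm_num)]
        ring
      · rw [a1, b1]; simp
      · rw [a1, b1, abs_of_neg (by linarith), abs_of_nonpos (by linarith),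
          abs_of_neg (by norm_num)]
        ring
      · obtain ⟨c1, c2⟩ := abs_le.1 b1
        rw [a1, abs_of_nonpos (by linarith), abs_of_nonpos (by linarith), abs_of_neg (by norm_num)]
        ring
      · obtain ⟨c1, c2⟩ := abs_le.1 a1
        rw [b1, abs_of_nonneg (by linarith), abs_of_nonneg (by linarith), abs_of_pos (by norm_num)]
        ring
      · obtain ⟨c1, c2⟩ := abs_le.1 a1
        rw [b1, abs_of_nonpos (by linarith), abs_of_nonpos (by linarith), abs_of_neg (by norm_num)]
        ring
      · simp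
    -- the induction hypothesis
    have hih : c * Q2 G y' ≤ (A1 G y') ^ 2 := by
      apply ih
      have hsub : ((univ.image fun v => |y' v|).filter fun t => t ≠ 0) ⊆
          ((univ.image fun v => |y v|).filter fun t => t ≠ 0).erase m := by
        intro t ht
        rw [Finset.mem_filter, Finset.mem_image] at ht
        obtain ⟨⟨v, _, rfl⟩, ht0⟩ := ht
        have hm'case : m' ≠ 0 → ∃ w, |y w| = m' := by
          intro h
          refine ⟨vn, ?_⟩
          rw [hm'] at h ⊢
          change (if |y vn| = m then (0 : ℝ) else |y vn|) ≠ 0 at h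
          change |y vn| = if |y vn| = m then (0 : ℝ) else |y vn|
          split_ifs at h ⊢ with h1
          · exact absurd rfl h
          · rfl
        have hgoal : ∃ w, |y w| = |y' v| ∧ |y' v| ≠ m := by
          rcases hcases v with ⟨a1, a2, a3⟩ | ⟨a1, a2, a3⟩ | ⟨a1, a2, a3⟩
          · rw [a3] at ht0 ⊢
            rw [abs_of_nonneg hm'0] at ht0 ⊢
            obtain ⟨w, hw⟩ := hm'case ht0
            exact ⟨w, hw, hm'm.ne⟩
          · rw [a3] at ht0 ⊢
            rw [abs_neg, abs_of_nonneg hm'0] at ht0 ⊢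
            obtain ⟨w, hw⟩ := hm'case ht0
            exact ⟨w, hw, hm'm.ne⟩
          · rw [a3]
            exact ⟨v, rfl, (a1.trans_lt hm'm).ne⟩
        obtain ⟨w, hw1, hw2⟩ := hgoal
        rw [Finset.mem_erase, Finset.mem_filter, Finset.mem_image]
        exact ⟨hw2, ⟨w, mem_univ w, hw1⟩, ht0⟩
      have hmem : m ∈ ((univ.image fun v => |y v|).filter fun t => t ≠ 0) := by
        rw [Finset.mem_filter, Finset.mem_image]
        exact ⟨⟨vm, mem_univ vm, rfl⟩, hmpos.ne'⟩
      have h1 := Finset.card_le_card hsub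
      rw [Finset.card_erase_of_mem hmem] at h1
      omega
    have hH := H s hs
    -- combination
    set δ := m - m' with hδ
    have hδ0 : 0 ≤ δ := by rw [hδ]; linarith
    set X := ∑ p : V × V, if G.Adj p.1 p.2 then |y' p.1 + y' p.2| * |s p.1 + s p.2| else 0 with hX
    have hX0 : 0 ≤ X := Finset.sum_nonneg fun p _ => by split_ifs <;> positivity
    have hA : A1 G y = A1 G y' + δ * A1 G s := by
      unfold A1
      rw [Finset.mul_sum, ← Finset.sum_add_distrib]
      refine Finset.sum_congr rfl fun p _ => ?_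
      by_cases h : G.Adj p.1 p.2
      · simp only [h, if_true]
        exact hadd _ _
      · simp [h]
    have hQ : Q2 G y = Q2 G y' + 2 * δ * X + δ ^ 2 * Q2 G s := by
      rw [hX]
      unfold Q2
      rw [Finset.mul_sum, Finset.mul_sum, ← Finset.sum_add_distrib, ← Finset.sum_add_distrib]
      refine Finset.sum_congr rfl fun p _ => ?_
      by_cases h : G.Adj p.1 p.2
      · simp only [h, if_true]
        rw [← sq_abs, hadd, ← sq_abs (y' p.1 + y' p.2), ← sq_abs (s p.1 + s p.2)]
        ring
      · simp [h]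
    have hCS : X ^ 2 ≤ Q2 G y' * Q2 G s := by
      have h1 := Finset.sum_mul_sq_le_sq_mul_sq (univ : Finset (V × V))
        (fun p => if G.Adj p.1 p.2 then |y' p.1 + y' p.2| else 0)
        (fun p => if G.Adj p.1 p.2 then |s p.1 + s p.2| else 0)
      have e1 : (∑ p : V × V, (if G.Adj p.1 p.2 then |y' p.1 + y' p.2| else 0) *
          (if G.Adj p.1 p.2 then |s p.1 + s p.2| else 0)) = X := by
        rw [hX]
        refine Finset.sum_congr rfl fun p _ => ?_
        split_ifs <;> simp
      have e2 : (∑ p : V × V, (if G.Adj p.1 p.2 then |y' p.1 + y' p.2| else 0) ^ 2) = Q2 G y' := by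
        unfold Q2
        refine Finset.sum_congr rfl fun p _ => ?_
        split_ifs <;> simp
      have e3 : (∑ p : V × V, (if G.Adj p.1 p.2 then |s p.1 + s p.2| else 0) ^ 2) = Q2 G s := by
        unfold Q2
        refine Finset.sum_congr rfl fun p _ => ?_
        split_ifs <;> simp
      rw [e1, e2, e3] at h1
      exact h1
    have hcX : c * X ≤ A1 G y' * A1 G s := by
      have hr : 0 ≤ A1 G y' * A1 G s := mul_nonneg (A1_nonneg _) (A1_nonneg _)
      refine abs_le_of_sq_le_sq' ?_ hr |>.2
      calc (c * X) ^ 2 = c ^ 2 * X ^ 2 := by ring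
        _ ≤ c ^ 2 * (Q2 G y' * Q2 G s) := mul_le_mul_of_nonneg_left hCS (by positivity)
        _ = (c * Q2 G y') * (c * Q2 G s) := by ring
        _ ≤ (A1 G y') ^ 2 * (A1 G s) ^ 2 :=
          mul_le_mul hih hH (mul_nonneg hc0 (Q2_nonneg _)) (by positivity)
        _ = (A1 G y' * A1 G s) ^ 2 := by ring
    rw [hA, hQ]
    calc c * (Q2 G y' + 2 * δ * X + δ ^ 2 * Q2 G s)
        = c * Q2 G y' + 2 * δ * (c * X) + δ ^ 2 * (c * Q2 G s) := by ring
      _ ≤ (A1 G y') ^ 2 + 2 * δ * (A1 G y' * A1 G s) + δ ^ 2 * (A1 G s) ^ 2 := by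
          gcongr
      _ = (A1 G y' + δ * A1 G s) ^ 2 := by ring

/-- **Inequality (I)**, ordered pairs: `6 ∑ z^2 ≤ (∑ |z|)^2` -/
theorem ineqI_pairs [Fintype V] (hc : G.Connected) (harc : ArcT G) (hd : ∀ v, dg G v = 3)
    (h3 : NoC3 G) (h4 : NoC4 G) (y : V → ℝ) :
    6 * (∑ p : V × V, if G.Adj p.1 p.2 then (y p.1 + y p.2) ^ 2 else 0) ≤
      (∑ p : V × V, if G.Adj p.1 p.2 then |y p.1 + y p.2| else 0) ^ 2 := by
  have hvt : VT G := harc.vt hd
  by_cases hodd : OddW G
  · refine layer 6 (by norm_num) ?_ y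
    intro s hs
    -- the integer version
    let t : V → ℤ := fun v => if s v = 1 then 1 else if s v = -1 then -1 else 0
    have ht : ∀ v, t v = -1 ∨ t v = 0 ∨ t v = 1 := by
      intro v
      change (if s v = 1 then (1 : ℤ) else if s v = -1 then -1 else 0) = -1 ∨
        (if s v = 1 then (1 : ℤ) else if s v = -1 then -1 else 0) = 0 ∨
        (if s v = 1 then (1 : ℤ) else if s v = -1 then -1 else 0) = 1
      split_ifs <;> simp
    have hst : ∀ v, s v = (t v : ℝ) := by
      intro v
      change s v = ((if s v = 1 then (1 : ℤ) else if s v = -1 then -1 else 0 : ℤ) : ℝ)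
      rcases hs v with h | h | h
      · rw [h]; norm_num
      · rw [h]; norm_num
      · rw [h]; norm_num
    have h1 := nonbip_int hc hodd harc hd h4 t ht
    have e1 : Q2 G s = ((L2 G t : ℤ) : ℝ) := by
      unfold Q2 L2
      rw [Int.cast_sum]
      refine Finset.sum_congr rfl fun p _ => ?_
      rw [hst, hst]
      split_ifs <;> simp
    have e2 : A1 G s = ((L1 G t : ℤ) : ℝ) := by
      unfold A1 L1
      rw [Int.cast_sum]
      refine Finset.sum_congr rfl fun p _ => ?_
      rw [hst, hst]
      split_ifs <;> simp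
    rw [e1, e2]
    exact_mod_cast h1
  · obtain ⟨c, hcol⟩ := bip_of_not_oddW hc hodd
    have h := bip_ineq hc hvt hd c hcol y
    have e : (2 : ℝ) * ((3 : ℕ) : ℝ) = 6 := by norm_num
    rw [e] at h
    exact h

end Pool.Agent.UPS.A3
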