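import Pool.Agent.Lib.MP_876e19_co_arc3.Finish
import Pool.Agent.Lib.MP_876e19_co_ups.DegTwo
import Pool.Agent.Lib.MP_876e19_co_arc3.Girth5
import Pool.Agent.Lib.MP_876e19_co_arc3.IneqI

/-!
# Cubic arc-transitive graphs: the realisation lemma inserted (helper59, TT876)
-/

set_option autoImplicit false

open Finset

namespace Pool.Agent.UPS.A3

open Pool.Agent.UPS

variable {V : Type*} [Fintype V] [DecidableEq V]

theorem degTwo_holds (G : SimpleGraph V) : DegTwo G := by
  classical
  intro x p hp A hsymm hA hdeg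
  obtain ⟨q, hq1, hq2, hq3⟩ := Pool.Agent.UPS.DegTwo.deg_two_rel x p hp A hsymm
    (fun u w h => ⟨(hA u w h).1, Ne.symm (hA u w h).2.1, Ne.symm (hA w u (hsymm u w h)).2.1,
      (hA u w h).2.2, (hA w u (hsymm u w h)).2.2⟩)
    (fun v => by
      obtain ⟨a, b, hab⟩ := hdeg v
      have h1 : (univ.filter fun w => A v w) ⊆ {a, b} := by
        intro w hw
        rw [mem_filter] at hw
        rw [mem_insert, mem_singleton]
        exact hab w hw.2
      exact (card_le_card h1).trans (card_le_two))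
  refine ⟨q, hq1, hq2, fun v S hS => ?_⟩
  rw [hq3 v]
  congr 2
  ext w
  rw [mem_filter, hS]
  simp

/-- the output of the flow step -/
def FlowBase (G : SimpleGraph V) [DecidableRel G.Adj] : Prop :=
  ∃ P : ∀ x y : V, G.Walk x y, (∀ x y, (P x y).length = G.dist x y) ∧
    (∀ u w, G.Adj u w → (univ.filter fun x => x ≠ w ∧ (P x w).penultimate = u).card ≤
      (Fintype.card V + 1) / 3) ∧
    ∃ (L : ℕ) (ρ : V → V → ℝ), (∀ u w, ρ u w = ρ w u) ∧
      (∀ v, (load P v : ℝ) = L + (1 / 2) * ∑ w, if G.Adj v w then ρ v w else 0) ∧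
      (∑ p : V × V, if G.Adj p.1 p.2 then ρ p.1 p.2 ^ 2 else 0) ≤
        Fintype.card V * (Fintype.card V - 1) / 2

/-- **Cubic arc-transitive graphs of diameter at least four** (given the flow step). -/
theorem arc3 {G : SimpleGraph V} [DecidableRel G.Adj] (hc : G.Connected) (harc : ArcT G)
    (hd : ∀ v, UPS2.EC.dg G v = 3) {x y : V} (hxy : 4 ≤ G.dist x y) (hfb : FlowBase G) :
    HasUPS G := by
  classical
  obtain ⟨h3, h4, hg, h12⟩ := girth5 hc harc hd hxy
  obtain ⟨P, hgeo, hlast, L, ρ, hρ, hload, hl2⟩ := hfb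
  refine finish hc h12 (fun v => ?_) hg (fun y => ?_) (degTwo_holds G) P hgeo hlast L ρ hρ hload
    hl2
  · rw [← hd v]
    unfold UPS2.EC.dg
    rw [card_filter]
    refine sum_congr rfl fun w _ => ?_
    by_cases h : G.Adj v w <;> simp [h]
  · have h := ineqI_pairs hc harc hd h3 h4 y
    refine le_trans (le_of_eq ?_) (h.trans (le_of_eq ?_))
    · congr 1
      refine sum_congr rfl fun p _ => ?_
      by_cases h : G.Adj p.1 p.2 <;> simp [h]
    · congr 1
      refine sum_congr rfl fun p _ => ?_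
      by_cases h : G.Adj p.1 p.2 <;> simp [h]

end Pool.Agent.UPS.A3
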