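import Pool.Agent.Lib.MP_876e19_co_arc3.FlowWalks

/-!
# The geodesic base of an arc-transitive graph (helper33, rounding by helper22)
-/

set_option autoImplicit false

namespace Pool.Agent.UPS.A3

open Finset

variable {V : Type*} [Fintype V] [DecidableEq V]

/-- the rounding theorem of helper22 as a proposition -/
def FlowRoundAll (G : SimpleGraph V) : Prop :=
  ∀ (F : V → V → V → ℝ) (L : ℝ), (∀ y u w, 0 ≤ F y u w) →
    (∀ y u w, F y u w ≠ 0 → G.Adj u w ∧ G.dist u y = G.dist w y + 1) →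
    (∀ y u, u ≠ y → ∑ w, F y u w = 1 + ∑ w, F y w u) →
    (∀ v, ∑ y, ∑ w, F y v w = L) →
    ∃ (F' : V → V → V → ℕ) (rho : V → V → ℝ),
      (∀ y u w, F' y u w ≠ 0 → G.Adj u w ∧ G.dist u y = G.dist w y + 1) ∧
      (∀ y u, u ≠ y → ∑ w, F' y u w = 1 + ∑ w, F' y w u) ∧
      (∀ y u w, ⌊F y u w⌋ ≤ (F' y u w : ℤ) ∧ (F' y u w : ℤ) ≤ ⌈F y u w⌉) ∧
      (∀ u w, rho u w = rho w u) ∧ (∀ u w, ¬ G.Adj u w → rho u w = 0) ∧
      (∀ v, 2 * ((∑ y, ∑ w, (F' y v w : ℝ)) - L) = ∑ w, rho v w) ∧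
      ∑ v, ∑ w, rho v w ^ 2 ≤ (Fintype.card V : ℝ) * (Fintype.card V - 1) / 2

lemma ceil_aux {n q : ℕ} (hq : 1 ≤ q) (hn : 1 ≤ n) {x : ℝ} (h : (q : ℝ) * x = (n : ℝ) - 1) {m : ℕ}
    (hm : (m : ℤ) ≤ ⌈x⌉) : m ≤ (n + q - 2) / q := by
  rw [Nat.le_div_iff_mul_le (by omega)]
  have h1 : (m : ℝ) < x + 1 := by
    have h2 : ((m : ℤ) : ℝ) ≤ (⌈x⌉ : ℝ) := by exact_mod_cast hm
    have h3 := Int.ceil_lt_add_one x
    have h4 : ((m : ℤ) : ℝ) = (m : ℝ) := by push_cast; rfl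
    linarith
  have hq' : (0 : ℝ) < q := by exact_mod_cast hq
  have h5 : (m : ℝ) * q < (n : ℝ) - 1 + q := by
    have := mul_lt_mul_of_pos_right h1 hq'
    nlinarith
  have h6 : ((m * q + 1 : ℕ) : ℝ) < ((n + q : ℕ) : ℝ) := by push_cast; linarith
  have h7 : m * q + 1 < n + q := by exact_mod_cast h6
  omega

open Classical in
/-- the geodesic base, general valency -/
theorem flow_base_gen {G : SimpleGraph V} (hR : FlowRoundAll G) (hc : G.Connected)
    (harc : ∀ a b a' b', G.Adj a b → G.Adj a' b' → ∃ f : G ≃g G, f a = a' ∧ f b = b')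
    {q : ℕ} (hq : 1 ≤ q) (hreg : ∀ v, (univ.filter fun w => G.Adj v w).card = q) :
    ∃ P : ∀ x y : V, G.Walk x y, (∀ x y, (P x y).length = G.dist x y) ∧
      (∀ u w, G.Adj u w → (univ.filter fun x => x ≠ w ∧ (P x w).penultimate = u).card ≤
        (Fintype.card V + q - 2) / q) ∧
      ∃ (L : ℕ) (rho : V → V → ℝ), (∀ u w, rho u w = rho w u) ∧
        (∀ v, (load P v : ℝ) = L + (1 / 2) * ∑ w, if G.Adj v w then rho v w else 0) ∧
        (∑ p : V × V, if G.Adj p.1 p.2 then rho p.1 p.2 ^ 2 else 0) ≤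
          (Fintype.card V : ℝ) * (Fintype.card V - 1) / 2 := by
  have hT : VT G := by
    have hn : ∀ v, ∃ w, G.Adj v w := by
      intro v
      have h1 : 0 < (univ.filter fun w => G.Adj v w).card := by rw [hreg]; omega
      obtain ⟨w, hw⟩ := card_pos.1 h1
      exact ⟨w, (mem_filter.1 hw).2⟩
    intro x y
    obtain ⟨x', hx⟩ := hn x
    obtain ⟨y', hy⟩ := hn y
    obtain ⟨f, hf, _⟩ := harc x x' y y' hx hy
    exact ⟨f, hf⟩
  obtain ⟨F, h0, hsupp, hcons, hload, hinv⟩ := exists_flow hc hT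
  obtain ⟨v0⟩ := hc.nonempty
  have hn1 : 1 ≤ Fintype.card V := Fintype.card_pos_iff.2 ⟨v0⟩
  obtain ⟨F', rho, s1, s2, s3, s4, s5, s6, s7⟩ := hR F ((∑ x, G.dist x v0 : ℕ) : ℝ) h0 hsupp hcons
    (fun v => by rw [hload v, sum_dist_aut hT v v0])
  obtain ⟨P, p1, p2, p3⟩ := walks_of_flow F' s1 s2
  refine ⟨P, p1, ?_, (Fintype.card V - 1) + ∑ x, G.dist x v0, rho, s4, ?_, ?_⟩
  · intro u w huw
    rw [p2]
    have h1 := last_arc harc hreg F hsupp hcons hinv huw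
    exact ceil_aux hq hn1 h1 (s3 w u w).2
  · intro v
    have h1 : ∑ w, (if G.Adj v w then rho v w else 0) = ∑ w, rho v w := by
      refine Finset.sum_congr rfl fun w _ => ?_
      by_cases h : G.Adj v w
      · rw [if_pos h]
      · rw [if_neg h, s5 v w h]
    rw [h1, ← s6 v, p3 v]
    push_cast
    ring
  · rw [Fintype.sum_prod_type]
    refine le_trans (le_of_eq ?_) s7
    refine Finset.sum_congr rfl fun u _ => Finset.sum_congr rfl fun w _ => ?_
    by_cases h : G.Adj u w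
    · rw [if_pos h]
    · rw [if_neg h, s5 u w h]; ring

end Pool.Agent.UPS.A3
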