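import Pool.Agent.Lib.MP_876e19_co_arc3.Arc3
import Pool.Agent.Lib.MP_876e19_co_arc3.FlowBase
import Pool.Agent.Lib.MP_876e19_co4.FlowRound
import Pool.Agent.Lib.MP_876e19_co2.DiamThree
import Pool.Agent.Lib.MP_876e19_co_ups.CubicNotArc

/-!
# Every connected cubic vertex-transitive graph has a uniform path system

Assembly (helper59, TT876): diameter at most three (`diam_three`), not arc-transitive
(`cubic_not_arcT`), arc-transitive of diameter at least four (`arc3`).
-/

set_option autoImplicit false

open Finset

namespace Pool.Agent.UPS.A3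

open Pool.Agent.UPS

/-- the flow step -/
theorem flowBase_holds {V : Type*} [Fintype V] [DecidableEq V] {G : SimpleGraph V}
    [DecidableRel G.Adj] (hc : G.Connected) (harc : ArcT G)
    (h3 : ∀ v, (univ.filter fun w => G.Adj v w).card = 3) : FlowBase G := by
  obtain ⟨P, h1, h2, L, ρ, h4, h5, h6⟩ := flow_base_gen
    (fun F L a b c d => FR.flow_round_all G F L a b c d) hc harc (q := 3) (by norm_num)
    (fun v => (congrArg card (Finset.ext fun w => by simp only [mem_filter])).trans (h3 v))
  refine ⟨P, h1, fun u w huw => ?_, L, ρ, h4, fun v => ?_, ?_⟩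
  · refine le_trans (le_of_eq ?_) (h2 u w huw)
    exact congrArg card (Finset.ext fun x => by simp only [mem_filter])
  · rw [h5 v]
    congr 2
    refine sum_congr rfl fun w _ => ?_
    by_cases h : G.Adj v w <;> simp [h]
  · refine le_trans (le_of_eq ?_) h6
    refine sum_congr rfl fun p _ => ?_
    by_cases h : G.Adj p.1 p.2 <;> simp [h]

/-- **Cubic arc-transitive graphs.** -/
theorem cubic_arcT {V : Type*} [Fintype V] [DecidableEq V] {G : SimpleGraph V}
    [DecidableRel G.Adj] (hG : G.Connected) (harc : ArcT G)
    (h3 : ∀ v, (univ.filter fun w => G.Adj v w).card = 3) : HasUPS G := by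
  have hdg : ∀ v, UPS2.EC.dg G v = 3 := by
    intro v
    rw [← h3 v, card_filter]
    unfold UPS2.EC.dg
    refine sum_congr rfl fun w _ => ?_
    by_cases h : G.Adj v w <;> simp [h]
  by_cases hD : ∀ x y, G.dist x y ≤ 3
  · exact UPS2.diam_three hG (harc.vt hdg) hD
  · push Not at hD
    obtain ⟨x, y, hxy⟩ := hD
    exact arc3 hG harc hdg (x := x) (y := y) hxy (flowBase_holds hG harc h3)

/-- **Every connected cubic vertex-transitive graph has a uniform path system.** -/
theorem cubic {V : Type} [Fintype V] [DecidableEq V] {G : SimpleGraph V}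
    [DecidableRel G.Adj] (hG : G.Connected) (hT : VT G) (hd : ∀ v, G.degree v = 3) :
    HasUPS G := by
  by_cases harc : ArcT G
  · refine cubic_arcT hG harc fun v => ?_
    rw [← hd v, ← SimpleGraph.card_neighborFinset_eq_degree]
    congr 1
    ext w
    simp
  · exact Cyc.cubic_not_arcT hG hT hd harc

end Pool.Agent.UPS.A3
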