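import Pool.Agent.Lib.MP_876e19_co_ups.DoubleCover

/-!
# The cut lemma for cubic arc-transitive graphs of girth at least five (MP_876e19_co)

In a connected cubic arc-transitive graph without triangles and 4-cycles every vertex set `S` with
`3 ≤ |S|`, `3 ≤ |Sᶜ|` has at least five leaving edges.
-/

set_option autoImplicit false

namespace Pool.Agent.UPS.A3

open Finset Classical
open Pool.Agent.UPS2.EC

variable {V : Type*}

/-- arc-transitive -/
def ArcT (G : SimpleGraph V) : Prop :=
  ∀ a b a' b' : V, G.Adj a b → G.Adj a' b' → ∃ f : G ≃g G, f a = a' ∧ f b = b'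

/-- no triangle -/
def NoC3 (G : SimpleGraph V) : Prop :=
  ∀ a b c : V, G.Adj a b → G.Adj b c → G.Adj a c → False

/-- no 4-cycle `a b c d` -/
def NoC4 (G : SimpleGraph V) : Prop :=
  ∀ a b c d : V, a ≠ c → b ≠ d → G.Adj a b → G.Adj b c → G.Adj c d → G.Adj d a → False

variable {G : SimpleGraph V}

lemma ArcT.vt [Fintype V] (h : ArcT G) (hd : ∀ v, dg G v = 3) : VT G := by
  intro x y
  have hnb : ∀ v : V, ∃ w, G.Adj v w := by
    intro v
    by_contra hcon
    push Not at hcon
    have h0 : dg G v = 0 := by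
      unfold dg
      exact Finset.sum_eq_zero fun w _ => by simp [hcon w]
    rw [hd v] at h0
    omega
  obtain ⟨a, ha⟩ := hnb x
  obtain ⟨b, hb⟩ := hnb y
  obtain ⟨f, hf, _⟩ := h x a y b ha hb
  exact ⟨f, hf⟩

lemma cut_add_sum [Fintype V] {d : ℕ} (hd : ∀ v, dg G v = d) (S : Finset V) :
    cut G S + ∑ a ∈ S, dgI G S a = S.card * d := by
  rw [cut_eq, ← Finset.sum_add_distrib]
  have : ∀ a ∈ S, (∑ b : V, if b ∉ S ∧ G.Adj a b then 1 else 0) + dgI G S a = d := by
    intro a _
    have := dg_split (G := G) S a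
    rw [hd] at this
    omega
  rw [Finset.sum_congr rfl this]
  simp

/-- the inner degree sum is even -/
lemma even_dgI [Fintype V] (S : Finset V) : Even (∑ a ∈ S, dgI G S a) := by
  let H : SimpleGraph V :=
    { Adj := fun a b => a ∈ S ∧ b ∈ S ∧ G.Adj a b
      symm := ⟨fun a b h => ⟨h.2.1, h.1, h.2.2.symm⟩⟩
      loopless := ⟨fun a h => G.loopless.irrefl a h.2.2⟩ }
  have hdeg : ∀ v : V, H.degree v = if v ∈ S then dgI G S v else 0 := by
    intro v
    rw [← SimpleGraph.card_neighborFinset_eq_degree, SimpleGraph.neighborFinset_eq_filter]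
    by_cases hv : v ∈ S
    · rw [if_pos hv]
      unfold dgI
      rw [Finset.card_filter]
      refine Finset.sum_congr rfl fun w _ => ?_
      refine if_congr ?_ rfl rfl
      exact ⟨fun h => ⟨h.2.1, h.2.2⟩, fun h => ⟨hv, h.1, h.2⟩⟩
    · rw [if_neg hv, Finset.card_eq_zero, Finset.filter_eq_empty_iff]
      intro w _ h
      exact hv h.1
  have h1 : (∑ a ∈ S, dgI G S a) = ∑ v : V, H.degree v := by
    rw [Finset.sum_congr rfl fun v _ => hdeg v, ← Finset.sum_filter, Finset.filter_mem_eq_inter,
      Finset.univ_inter]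
  rw [h1, SimpleGraph.sum_degrees_eq_twice_card_edges]
  exact even_two_mul _

/-- four vertices with inner degree sum at least eight contain a triangle or a 4-cycle -/
lemma four_lt [Fintype V] (h3 : NoC3 G) (h4 : NoC4 G) {S : Finset V} (hS : S.card = 4) :
    ∑ a ∈ S, dgI G S a < 8 := by
  obtain ⟨a, b, c, d, hab, hac, had, hbc, hbd, hcd, rfl⟩ := Finset.card_eq_four.1 hS
  have key : ∀ v : V, dgI G {a, b, c, d} v = (if G.Adj v a then 1 else 0) +
      (if G.Adj v b then 1 else 0) + (if G.Adj v c then 1 else 0) +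
      (if G.Adj v d then 1 else 0) := by
    intro v
    unfold dgI
    rw [← Finset.sum_subset (Finset.subset_univ ({a, b, c, d} : Finset V))]
    · rw [Finset.sum_insert (by simp [hab, hac, had]), Finset.sum_insert (by simp [hbc, hbd]),
        Finset.sum_insert (by simp [hcd]), Finset.sum_singleton]
      simp
      ring
    · intro w _ hw
      simp [hw]
  rw [Finset.sum_insert (by simp [hab, hac, had]), Finset.sum_insert (by simp [hbc, hbd]),
    Finset.sum_insert (by simp [hcd]), Finset.sum_singleton]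
  simp only [key, SimpleGraph.irrefl, if_false]
  rw [G.adj_comm b a, G.adj_comm c a, G.adj_comm d a, G.adj_comm c b, G.adj_comm d b,
    G.adj_comm d c]
  have t1 := h3 a b c
  have t2 := h3 a b d
  have t3 := h3 a c d
  have t4 := h3 b c d
  have q1 := h4 a b c d hac hbd
  have q2 := h4 a b d c had hbc
  have q3 := h4 a c b d hab hcd
  rw [G.adj_comm d a] at q1
  rw [G.adj_comm d c, G.adj_comm c a] at q2
  rw [G.adj_comm c b, G.adj_comm d a] at q3
  by_cases e1 : G.Adj a b <;> by_cases e2 : G.Adj a c <;> by_cases e3 : G.Adj a d <;>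
    by_cases e4 : G.Adj b c <;> by_cases e5 : G.Adj b d <;> by_cases e6 : G.Adj c d <;>
    simp [e1, e2, e3, e4, e5, e6] at t1 t2 t3 t4 q1 q2 q3 ⊢

/-- **cut lemma** -/
theorem cut5 [Fintype V] (hc : G.Connected) (harc : ArcT G) (hd : ∀ v, dg G v = 3)
    (h3 : NoC3 G) (h4 : NoC4 G) {S : Finset V} (hS1 : 3 ≤ S.card) (hS2 : 3 ≤ (Sᶜ).card) :
    5 ≤ cut G S := by
  have hvt : VT G := harc.vt hd
  -- every such cut has at least four edges
  have hge4 : ∀ X : Finset V, 3 ≤ X.card → 3 ≤ (Xᶜ).card → 4 ≤ cut G X := by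
    intro X hX hXc
    by_cases hE : HasEdge G X
    · by_cases hE' : HasEdge G Xᶜ
      · have := edge_conn' hc hvt hd h3 hE hE'
        omega
      · have := cut_indep hd hE'
        rw [cut_compl] at this
        omega
    · have := cut_indep hd hE
      omega
  by_contra hlt
  have hS4 : cut G S = 4 := by
    have := hge4 S hS1 hS2
    omega
  let Q : ℕ → Prop := fun k => ∃ X : Finset V, 3 ≤ X.card ∧ 3 ≤ (Xᶜ).card ∧ cut G X = 4 ∧
    X.card = k
  have hQ : ∃ k, Q k := ⟨_, S, hS1, hS2, hS4, rfl⟩
  obtain ⟨A, hA1, hA2, hA4, hAk⟩ := Nat.find_spec hQ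
  have hamin : ∀ X : Finset V, 3 ≤ X.card → 3 ≤ (Xᶜ).card → X.card < A.card → 5 ≤ cut G X := by
    intro X h h' h''
    by_contra hcon
    have h4' : cut G X = 4 := by
      have := hge4 X h h'
      omega
    have := Nat.find_min' hQ ⟨X, h, h', h4', rfl⟩
    omega
  have hcardle : A.card ≤ Fintype.card V := Finset.card_le_univ A
  have hcomp : ∀ X : Finset V, (Xᶜ).card = Fintype.card V - X.card := fun X =>
    Finset.card_compl X
  have hhalf : 2 * A.card ≤ Fintype.card V := by
    by_contra hcon
    have hAc := hcomp A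
    have h5 := hamin Aᶜ hA2 (by rw [compl_compl]; exact hA1) (by omega)
    rw [cut_compl] at h5
    omega
  -- the size is even and at least six
  have hA6 : 6 ≤ A.card := by
    have h1 := cut_add_sum hd A
    obtain ⟨r, hr⟩ := even_dgI (G := G) A
    by_contra hcon
    have hA : A.card = 4 := by omega
    have := four_lt h3 h4 hA
    omega
  -- translates are equal or disjoint
  have hblock : ∀ φ : G ≃g G, A.image φ = A ∨ Disjoint (A.image φ) A := by
    intro φ
    by_contra hcon
    push Not at hcon
    obtain ⟨hne, hnd⟩ := hcon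
    set B := A.image φ with hB
    have hBcard : B.card = A.card := Finset.card_image_of_injective A φ.injective
    have hBcut : cut G B = 4 := by rw [hB, cut_map, hA4]
    have hint : 1 ≤ (A ∩ B).card := by
      rw [Nat.one_le_iff_ne_zero, Ne, Finset.card_eq_zero]
      intro h
      exact hnd (Finset.disjoint_iff_inter_eq_empty.2 (by rw [Finset.inter_comm]; exact h))
    have hint2 : (A ∩ B).card < A.card := by
      refine Finset.card_lt_card ⟨Finset.inter_subset_left, fun h => hne ?_⟩
      have h' : A ⊆ B := fun a ha => (Finset.mem_inter.1 (h ha)).2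
      exact (Finset.eq_of_subset_of_card_le h' hBcard.le).symm
    have hun := Finset.card_union_add_card_inter A B
    have hd1 := Finset.card_sdiff_add_card_inter A B
    have hd2 := Finset.card_sdiff_add_card_inter B A
    rw [Finset.inter_comm B A] at hd2
    have c1 := hcomp (A ∩ B)
    have c2 := hcomp (A ∪ B)
    have c3 := hcomp (A \ B)
    have c4 := hcomp (B \ A)
    by_cases ht : 3 ≤ (A ∩ B).card
    · have h1 := hamin (A ∩ B) ht (by omega) hint2
      have h2 := hge4 (A ∪ B) (by omega) (by omega)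
      have h3' := cut_submod (G := G) A B
      omega
    · have h1 := hamin (A \ B) (by omega) (by omega) (by omega)
      have h2 := hamin (B \ A) (by omega) (by omega) (by omega)
      have h3' := cut_posi (G := G) A B
      omega
  -- an inner edge and a boundary edge
  have hE : HasEdge G A := by
    by_contra hcon
    have := cut_indep hd hcon
    omega
  obtain ⟨a, ha, b, hb, hab⟩ := hE
  obtain ⟨c, e, hce, hcA, heA⟩ : ∃ c e, G.Adj c e ∧ c ∈ A ∧ e ∉ A := by
    by_contra hcon
    push Not at hcon
    have : cut G A = 0 := by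
      unfold cut
      refine Finset.sum_eq_zero fun p _ => ?_
      rw [if_neg]
      rintro ⟨h1, h2, h3'⟩
      exact h2 (hcon _ _ h3' h1)
    omega
  obtain ⟨f, hf1, hf2⟩ := harc a b c e hab hce
  rcases hblock f with h | h
  · apply heA
    rw [← h, ← hf2]
    exact Finset.mem_image_of_mem f hb
  · refine Finset.disjoint_left.1 h (Finset.mem_image.2 ⟨a, ha, hf1⟩) hcA

/-- the same with a cardinality hypothesis (no complement instance) -/
theorem cut5' [Fintype V] (hc : G.Connected) (harc : ArcT G) (hd : ∀ v, dg G v = 3)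
    (h3 : NoC3 G) (h4 : NoC4 G) {S : Finset V} (hS1 : 3 ≤ S.card)
    (hS2 : S.card + 3 ≤ Fintype.card V) : 5 ≤ cut G S :=
  cut5 hc harc hd h3 h4 hS1 (by rw [Finset.card_compl]; omega)

end Pool.Agent.UPS.A3
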