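import Mathlib

/-!
# Real correction by least squares (helper59, TT876)
-/

set_option autoImplicit false

open Finset

namespace Pool.Agent.UPS.A3

variable {V : Type*} [Fintype V] [DecidableEq V]

/-- `A` is the adjacency relation; `k0` is a symmetric weight with degrees `D` (possibly outside
the box `[0, c]`). If `∑ |z| dist(k0, wrong side)` is nonnegative for all `z = y u + y w`, there is a
weight with the same degrees inside the box. -/
theorem real_corr (A : V → V → Prop) [DecidableRel A] (hA : ∀ u w, A u w → A w u)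
    (hAi : ∀ u, ¬ A u u) (c : ℝ) (hc : 0 ≤ c) (k0 : V → V → ℝ) (hk0 : ∀ u w, k0 u w = k0 w u)
    (hbox : ∀ y : V → ℝ, 0 ≤ ∑ u, ∑ w, if A u w then
      (if 0 < y u + y w then (y u + y w) * k0 u w
        else if y u + y w < 0 then -(y u + y w) * (c - k0 u w) else 0) else 0) :
    ∃ K : V → V → ℝ, (∀ u w, K u w = K w u) ∧ (∀ u w, 0 ≤ K u w) ∧ (∀ u w, K u w ≤ c) ∧
      (∀ u w, ¬ A u w → K u w = 0) ∧
      ∀ v, ∑ w, K v w = ∑ w, if A v w then k0 v w else 0 := by
  classical
  set D : V → ℝ := fun v => ∑ w, if A v w then k0 v w else 0 with hD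
  let S : Set (V → V → ℝ) := {K | (∀ u w, K u w = K w u) ∧ (∀ u w, 0 ≤ K u w) ∧
    (∀ u w, K u w ≤ c) ∧ ∀ u w, ¬ A u w → K u w = 0}
  have hev : ∀ u w : V, Continuous fun K : V → V → ℝ => K u w := fun u w =>
    (continuous_apply w).comp (continuous_apply u)
  have hSc : IsCompact S := by
    have h1 : S ⊆ Set.pi Set.univ fun _ : V => Set.pi Set.univ fun _ : V => Set.Icc (0 : ℝ) c := by
      intro K hK u _ w _
      exact ⟨hK.2.1 u w, hK.2.2.1 u w⟩
    refine IsCompact.of_isClosed_subset (isCompact_univ_pi fun _ => isCompact_univ_pi fun _ =>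
      isCompact_Icc) ?_ h1
    have h2 : S = (⋂ u, ⋂ w, {K | K u w = K w u}) ∩ (⋂ u, ⋂ w, {K | 0 ≤ K u w}) ∩
        (⋂ u, ⋂ w, {K | K u w ≤ c}) ∩ (⋂ u, ⋂ w, {K | ¬ A u w → K u w = 0}) := by
      ext K
      simp only [S, Set.mem_ofPred_eq, Set.mem_inter_iff, Set.mem_iInter]
      tauto
    rw [h2]
    refine ((IsClosed.inter ?_ ?_).inter ?_).inter ?_
    · exact isClosed_iInter fun u => isClosed_iInter fun w => isClosed_eq (hev u w) (hev w u)
    · exact isClosed_iInter fun u => isClosed_iInter fun w => isClosed_le continuous_const (hev u w)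
    · exact isClosed_iInter fun u => isClosed_iInter fun w => isClosed_le (hev u w) continuous_const
    · refine isClosed_iInter fun u => isClosed_iInter fun w => ?_
      by_cases h : A u w
      · have : {K : V → V → ℝ | ¬ A u w → K u w = 0} = Set.univ := by
          ext K; simp [h]
        rw [this]; exact isClosed_univ
      · have : {K : V → V → ℝ | ¬ A u w → K u w = 0} = {K | K u w = 0} := by
          ext K; simp [h]
        rw [this]; exact isClosed_eq (hev u w) continuous_const
  have hSn : S.Nonempty := ⟨fun _ _ => 0, fun _ _ => rfl, fun _ _ => le_rfl, fun _ _ => hc,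
    fun _ _ _ => rfl⟩
  let Φ : (V → V → ℝ) → ℝ := fun K => ∑ v, (∑ w, K v w - D v) ^ 2
  have hΦ : Continuous Φ := by
    refine continuous_finsetSum _ fun v _ => ?_
    exact ((continuous_finsetSum _ fun w _ => hev v w).sub continuous_const).pow 2
  obtain ⟨K, hKS, hK⟩ := hSc.exists_isMinOn hSn hΦ.continuousOn
  refine ⟨K, hKS.1, hKS.2.1, hKS.2.2.1, hKS.2.2.2, ?_⟩
  set y : V → ℝ := fun v => ∑ w, K v w - D v with hy
  -- perturbation
  have hpert : ∀ u w t, A u w → 0 ≤ K u w + t → K u w + t ≤ c →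
      0 ≤ 2 * t * (y u + y w) + 2 * t ^ 2 := by
    intro u w t huw h1 h2
    have hne : u ≠ w := fun h => hAi u (h ▸ huw)
    let K' : V → V → ℝ := fun a b => K a b + (if a = u ∧ b = w then t else 0) +
      (if a = w ∧ b = u then t else 0)
    have hK'S : K' ∈ S := by
      have hval : ∀ a b, K' a b = K a b ∨ (K' a b = K u w + t ∧ (A a b)) := by
        intro a b
        by_cases h3 : a = u ∧ b = w
        · obtain ⟨rfl, rfl⟩ := h3
          right
          refine ⟨?_, huw⟩
          simp [K', hne]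
        · by_cases h4 : a = w ∧ b = u
          · obtain ⟨rfl, rfl⟩ := h4
            right
            refine ⟨?_, hA _ _ huw⟩
            simp [K', hne, hKS.1 a b]
          · left
            simp only [K', if_neg h3, if_neg h4, add_zero]
      refine ⟨fun a b => ?_, fun a b => ?_, fun a b => ?_, fun a b hab => ?_⟩
      · simp only [K']
        rw [hKS.1 a b]
        have e1 : (a = u ∧ b = w) ↔ (b = w ∧ a = u) := and_comm
        have e2 : (a = w ∧ b = u) ↔ (b = u ∧ a = w) := and_comm
        simp only [e1, e2]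
        ring
      · rcases hval a b with h | h
        · rw [h]; exact hKS.2.1 a b
        · rw [h.1]; exact h1
      · rcases hval a b with h | h
        · rw [h]; exact hKS.2.2.1 a b
        · rw [h.1]; exact h2
      · rcases hval a b with h | h
        · rw [h]; exact hKS.2.2.2 a b hab
        · exact absurd h.2 hab
    have h3 := hK hK'S
    have h4 : ∀ v, ∑ b, K' v b = ∑ b, K v b + (if v = u then t else 0) +
        (if v = w then t else 0) := by
      intro v
      simp only [K']
      rw [sum_add_distrib, sum_add_distrib]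
      congr 1
      · congr 1
        by_cases h : v = u <;> simp [h]
      · by_cases h : v = w <;> simp [h]
    have h5 : Φ K' = Φ K + (2 * t * (y u + y w) + 2 * t ^ 2) := by
      have h6 : ∀ v, (∑ b, K' v b - D v) ^ 2 = (∑ b, K v b - D v) ^ 2 +
          ((if v = u then 2 * t * y v + t ^ 2 else 0) +
            (if v = w then 2 * t * y v + t ^ 2 else 0)) := by
        intro v
        rw [h4]
        by_cases h : v = u
        · subst h
          simp only [if_true, if_neg hne, hy]
          ring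
        · by_cases h' : v = w
          · subst h'
            simp only [if_true, if_neg h, hy]
            ring
          · simp only [if_neg h, if_neg h']
            ring
      simp only [Φ]
      rw [sum_congr rfl fun v _ => h6 v, sum_add_distrib, sum_add_distrib, sum_ite_eq',
        sum_ite_eq']
      simp only [mem_univ, if_true]
      ring
    have h6 : Φ K ≤ Φ K' := h3
    linarith
  -- optimality conditions
  have hopt1 : ∀ u w, A u w → 0 < y u + y w → K u w = 0 := by
    intro u w huw hz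
    by_contra hne
    have hpos : 0 < K u w := lt_of_le_of_ne (hKS.2.1 u w) (Ne.symm hne)
    set t := min (K u w) ((y u + y w) / 2) with ht
    have ht0 : 0 < t := lt_min hpos (by linarith)
    have ht1 : t ≤ K u w := min_le_left _ _
    have ht2 : t ≤ (y u + y w) / 2 := min_le_right _ _
    have h1 := hpert u w (-t) huw (by linarith) (by
      have := hKS.2.2.1 u w
      linarith)
    nlinarith
  have hopt2 : ∀ u w, A u w → y u + y w < 0 → K u w = c := by
    intro u w huw hz
    by_contra hne
    have hpos : K u w < c := lt_of_le_of_ne (hKS.2.2.1 u w) hne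
    set t := min (c - K u w) (-(y u + y w) / 2) with ht
    have ht0 : 0 < t := lt_min (by linarith) (by linarith)
    have ht1 : t ≤ c - K u w := min_le_left _ _
    have ht2 : t ≤ -(y u + y w) / 2 := min_le_right _ _
    have h1 := hpert u w t huw (by
      have := hKS.2.1 u w
      linarith) (by linarith)
    nlinarith
  -- the identity
  have hid : 2 * ∑ v, y v ^ 2 = -∑ u, ∑ w, (if A u w then
      (if 0 < y u + y w then (y u + y w) * k0 u w
        else if y u + y w < 0 then -(y u + y w) * (c - k0 u w) else 0) else 0) := by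
    have h1 : ∀ v, y v ^ 2 = ∑ w, y v * (K v w - if A v w then k0 v w else 0) := by
      intro v
      rw [← mul_sum, sum_sub_distrib, sq]
    have h2 : ∑ v, y v ^ 2 = ∑ u, ∑ w, y u * (K u w - if A u w then k0 u w else 0) :=
      sum_congr rfl fun v _ => h1 v
    have h3 : ∑ v, y v ^ 2 = ∑ u, ∑ w, y w * (K u w - if A u w then k0 u w else 0) := by
      rw [h2, sum_comm]
      refine sum_congr rfl fun u _ => sum_congr rfl fun w _ => ?_
      rw [hKS.1 w u]
      by_cases h : A u w
      · rw [if_pos h, if_pos (hA _ _ h), hk0 w u]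
      · rw [if_neg h, if_neg fun h' => h (hA _ _ h')]
    rw [two_mul]
    nth_rewrite 1 [h2]
    rw [h3, ← sum_add_distrib, ← sum_neg_distrib]
    refine sum_congr rfl fun u _ => ?_
    rw [← sum_add_distrib, ← sum_neg_distrib]
    refine sum_congr rfl fun w _ => ?_
    by_cases h : A u w
    · simp only [if_pos h]
      by_cases hz : 0 < y u + y w
      · rw [if_pos hz, hopt1 u w h hz]
        ring
      · rw [if_neg hz]
        by_cases hz' : y u + y w < 0
        · rw [if_pos hz', hopt2 u w h hz']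
          ring
        · rw [if_neg hz']
          have : y u + y w = 0 := le_antisymm (not_lt.1 hz) (not_lt.1 hz')
          linear_combination this * (K u w - k0 u w)
    · simp only [if_neg h, hKS.2.2.2 u w h]
      ring
  have h1 := hbox y
  have h2 : 0 ≤ ∑ v, y v ^ 2 := sum_nonneg fun v _ => sq_nonneg _
  have h3 : ∑ v, y v ^ 2 = 0 := by linarith
  intro v
  have h4 := (sum_eq_zero_iff_of_nonneg fun v _ => sq_nonneg (y v)).1 h3 v (mem_univ v)
  have h5 : y v = 0 := by
    exact pow_eq_zero_iff (two_ne_zero) |>.1 h4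
  have h6 : ∑ w, K v w - D v = 0 := h5
  linarith

/-- The form used for cubic graphs: `k0 = c / 2 - ρ / 2`. -/
theorem real_corr_l2 (A : V → V → Prop) [DecidableRel A] (hA : ∀ u w, A u w → A w u)
    (hAi : ∀ u, ¬ A u u) (c : ℝ) (hc : 0 ≤ c) (ρ : V → V → ℝ) (hρ : ∀ u w, ρ u w = ρ w u)
    (κ : ℝ)
    (hineq : ∀ y : V → ℝ, κ * (∑ p : V × V, if A p.1 p.2 then (y p.1 + y p.2) ^ 2 else 0) ≤
      (∑ p : V × V, if A p.1 p.2 then |y p.1 + y p.2| else 0) ^ 2)
    (hl2 : (∑ p : V × V, if A p.1 p.2 then ρ p.1 p.2 ^ 2 else 0) ≤ κ * c ^ 2) :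
    ∃ K : V → V → ℝ, (∀ u w, K u w = K w u) ∧ (∀ u w, 0 ≤ K u w) ∧ (∀ u w, K u w ≤ c) ∧
      (∀ u w, ¬ A u w → K u w = 0) ∧
      ∀ v, ∑ w, K v w = ∑ w, if A v w then (c / 2 - ρ v w / 2) else 0 := by
  refine real_corr A hA hAi c hc (fun u w => c / 2 - ρ u w / 2) (fun u w => by
    simp only [hρ u w]) (fun y => ?_)
  set z : V × V → ℝ := fun p => if A p.1 p.2 then y p.1 + y p.2 else 0 with hz
  set r : V × V → ℝ := fun p => if A p.1 p.2 then ρ p.1 p.2 else 0 with hr
  have h1 : ∑ u, ∑ w, (if A u w then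
      (if 0 < y u + y w then (y u + y w) * (c / 2 - ρ u w / 2)
        else if y u + y w < 0 then -(y u + y w) * (c - (c / 2 - ρ u w / 2)) else 0) else 0) =
      (c * (∑ p, |z p|) - ∑ p, z p * r p) / 2 := by
    rw [← Fintype.sum_prod_type' (fun u w => (if A u w then
      (if 0 < y u + y w then (y u + y w) * (c / 2 - ρ u w / 2)
        else if y u + y w < 0 then -(y u + y w) * (c - (c / 2 - ρ u w / 2)) else 0) else 0)),
      mul_sum, ← sum_sub_distrib, sum_div]
    refine sum_congr rfl fun p _ => ?_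
    by_cases h : A p.1 p.2
    · simp only [hz, hr, if_pos h]
      by_cases h0 : 0 < y p.1 + y p.2
      · rw [if_pos h0, abs_of_pos h0]; ring
      · rw [if_neg h0]
        by_cases h0' : y p.1 + y p.2 < 0
        · rw [if_pos h0', abs_of_neg h0']; ring
        · rw [if_neg h0']
          have : y p.1 + y p.2 = 0 := le_antisymm (not_lt.1 h0) (not_lt.1 h0')
          rw [this]; simp
    · simp only [hz, hr, if_neg h]; simp
  rw [h1]
  have h2 : ∑ p, |z p| = ∑ p : V × V, if A p.1 p.2 then |y p.1 + y p.2| else 0 := by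
    refine sum_congr rfl fun p _ => ?_
    by_cases h : A p.1 p.2 <;> simp [hz, h]
  have h3 : ∑ p, z p ^ 2 = ∑ p : V × V, if A p.1 p.2 then (y p.1 + y p.2) ^ 2 else 0 := by
    refine sum_congr rfl fun p _ => ?_
    by_cases h : A p.1 p.2 <;> simp [hz, h]
  have h4 : ∑ p, r p ^ 2 = ∑ p : V × V, if A p.1 p.2 then ρ p.1 p.2 ^ 2 else 0 := by
    refine sum_congr rfl fun p _ => ?_
    by_cases h : A p.1 p.2 <;> simp [hr, h]
  have h5 := hineq y
  rw [← h2, ← h3] at h5
  rw [← h4] at hl2
  have h6 : (∑ p, z p * r p) ^ 2 ≤ (∑ p, z p ^ 2) * ∑ p, r p ^ 2 :=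
    sum_mul_sq_le_sq_mul_sq _ _ _
  have h7 : 0 ≤ ∑ p, |z p| := sum_nonneg fun p _ => abs_nonneg _
  have h8 : 0 ≤ ∑ p, z p ^ 2 := sum_nonneg fun p _ => sq_nonneg _
  have h9 : 0 ≤ ∑ p, r p ^ 2 := sum_nonneg fun p _ => sq_nonneg _
  have h10 : (∑ p, z p * r p) ^ 2 ≤ (c * ∑ p, |z p|) ^ 2 := by
    calc (∑ p, z p * r p) ^ 2 ≤ (∑ p, z p ^ 2) * ∑ p, r p ^ 2 := h6
      _ ≤ (∑ p, z p ^ 2) * (κ * c ^ 2) := mul_le_mul_of_nonneg_left hl2 h8
      _ = (κ * ∑ p, z p ^ 2) * c ^ 2 := by ring
      _ ≤ (∑ p, |z p|) ^ 2 * c ^ 2 := mul_le_mul_of_nonneg_right h5 (sq_nonneg c)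
      _ = (c * ∑ p, |z p|) ^ 2 := by ring
  have h11 : ∑ p, z p * r p ≤ c * ∑ p, |z p| :=
    le_of_sq_le_sq' h10 (mul_nonneg hc h7)
  linarith
where
  le_of_sq_le_sq' {a b : ℝ} (h : a ^ 2 ≤ b ^ 2) (hb : 0 ≤ b) : a ≤ b := by
    exact (abs_le_of_sq_le_sq' h hb).2

end Pool.Agent.UPS.A3
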