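import Pool.Agent.Lib.MP_876e19_co_arc3.HalfFix
import Pool.Agent.Lib.MP_876e19_co_arc3.RealCorr
import Pool.Agent.Lib.MP_876e19_co_ups.FlowInt

/-!
# Cubic graphs of girth at least five: from a balanced geodesic base to a uniform path system
(helper59, TT876)
-/

set_option autoImplicit false

open Finset

namespace Pool.Agent.UPS.A3

open Pool.Agent.UPS Pool.Agent.UPS.Parity Pool.Agent.UPS.Toggle

variable {V : Type*} [Fintype V] [DecidableEq V]

omit [Fintype V] [DecidableEq V] in
lemma isPath_of_geo {G : SimpleGraph V} {x y : V} (p : G.Walk x y) (h : p.length = G.dist x y) :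
    p.IsPath := p.isPath_of_length_eq_dist h

omit [Fintype V] in
/-- the second last vertex of a geodesic is the only vertex on it adjacent to the end -/
lemma geo_penultimate {G : SimpleGraph V} {x u w : V} (hc : G.Connected) (p : G.Walk x w)
    (h : p.length = G.dist x w) (huw : G.Adj u w) (hu : u ∈ p.support) : p.penultimate = u := by
  have h1 : (p.takeUntil u hu).length + (p.dropUntil u hu).length = p.length := by
    rw [← SimpleGraph.Walk.length_append, SimpleGraph.Walk.take_spec]
  have h2 : G.dist x w ≤ G.dist x u + 1 := by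
    have := hc.dist_triangle (u := x) (v := u) (w := w)
    rw [SimpleGraph.dist_eq_one_iff_adj.2 huw] at this
    exact this
  have h3 := SimpleGraph.dist_le (p.takeUntil u hu)
  have h4 : (p.dropUntil u hu).length ≤ 1 := by omega
  have h5 : (p.dropUntil u hu).length ≠ 0 := by
    intro h0
    exact huw.ne (SimpleGraph.Walk.eq_of_length_eq_zero h0)
  have h6 : (p.takeUntil u hu).length = p.length - 1 := by omega
  rw [SimpleGraph.Walk.penultimate, ← h6]
  exact SimpleGraph.Walk.getVert_length_takeUntil hu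

lemma sum_star {M : Type*} [AddCommMonoid M] (v : V) (f : Sym2 V → M) :
    ∑ e ∈ univ.filter (fun e : Sym2 V => v ∈ e), f e = ∑ w, f s(v, w) := by
  symm
  refine sum_bij' (fun w _ => s(v, w))
    (fun e he => Sym2.Mem.other' (a := v) (z := e) (mem_filter.1 he).2)
    (fun w _ => ?_) (fun e he => mem_univ _) (fun w _ => ?_) (fun e he => ?_) (fun w _ => rfl)
  · simp
  · have := Sym2.other_spec' (a := v) (z := s(v, w)) (by simp)
    rw [Sym2.eq_iff] at this
    rcases this with h | h
    · exact h.2
    · rw [h.2, h.1]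
  · exact Sym2.other_spec' _

lemma numbers {n : ℕ} (h12 : 12 ≤ n) (hev : Even n) :
    Even (n - 2 * ((n + 1) / 3)) ∧ 2 * ((n + 1) / 3) ≤ n ∧
      n * (n - 1) ≤ 12 * (n - 2 * ((n + 1) / 3)) ^ 2 := by
  obtain ⟨m, hm⟩ := hev
  have h0 : m % 3 = 0 ∨ m % 3 = 1 ∨ m % 3 = 2 := by omega
  rcases h0 with h | h | h
  · obtain ⟨k, hk⟩ : ∃ k, m = 3 * k := ⟨m / 3, by omega⟩
    have e1 : (n + 1) / 3 = 2 * k := by omega
    have e2 : n - 2 * ((n + 1) / 3) = 2 * k := by omega
    refine ⟨⟨k, by omega⟩, by omega, ?_⟩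
    rw [e2]
    have e3 : n = 6 * k := by omega
    rw [e3]
    calc 6 * k * (6 * k - 1) ≤ 6 * k * (6 * k) := Nat.mul_le_mul_left _ (by omega)
      _ ≤ 12 * (2 * k) ^ 2 := by nlinarith
  · obtain ⟨k, hk⟩ : ∃ k, m = 3 * k + 1 := ⟨m / 3, by omega⟩
    have e1 : (n + 1) / 3 = 2 * k + 1 := by omega
    have e2 : n - 2 * ((n + 1) / 3) = 2 * k := by omega
    refine ⟨⟨k, by omega⟩, by omega, ?_⟩
    rw [e2]
    have e3 : n = 6 * k + 2 := by omega
    have e4 : n - 1 = 6 * k + 1 := by omega
    rw [e4, e3]
    have h2 : 2 ≤ k := by omega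
    nlinarith
  · obtain ⟨k, hk⟩ : ∃ k, m = 3 * k + 2 := ⟨m / 3, by omega⟩
    have e1 : (n + 1) / 3 = 2 * k + 1 := by omega
    have e2 : n - 2 * ((n + 1) / 3) = 2 * k + 2 := by omega
    refine ⟨⟨k + 1, by omega⟩, by omega, ?_⟩
    rw [e2]
    have e3 : n = 6 * k + 4 := by omega
    have e4 : n - 1 = 6 * k + 3 := by omega
    rw [e4, e3]
    nlinarith

/-- the realisation lemma at one root, as a hypothesis -/
def DegTwo (G : SimpleGraph V) : Prop :=
  ∀ (x : V) (p : ∀ z, G.Walk x z), (∀ z, (p z).length = G.dist x z) →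
    ∀ A : V → V → Prop, (∀ u w, A u w → A w u) →
    (∀ u w, A u w → G.Adj u w ∧ x ≠ u ∧ u ∉ (p w).support) →
    (∀ v, ∃ a b, ∀ w, A v w → w = a ∨ w = b) →
    ∃ q : ∀ z, G.Walk x z, (∀ z, x ≠ z → (q z).IsPath) ∧ (∀ z, (∀ w, ¬ A z w) → q z = p z) ∧
      ∀ v (S : Finset V), (∀ w, w ∈ S ↔ A v w) →
        (univ.filter fun z => x ≠ z ∧ v ∈ (q z).support).card =
          (univ.filter fun z => x ≠ z ∧ v ∈ (p z).support).card + S.card

theorem finish {G : SimpleGraph V} [DecidableRel G.Adj] (hc : G.Connected) (h12 : 12 ≤ Fintype.card V)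
    (h3 : ∀ v, (univ.filter fun w => G.Adj v w).card = 3)
    (hg : ∀ a b c, G.Adj a b → G.Adj b c → a ≠ c → G.dist a c = 2 ∧
      ∀ b', G.Adj a b' → G.Adj b' c → b' = b)
    (hineq : ∀ y : V → ℝ, 6 * (∑ p : V × V, if G.Adj p.1 p.2 then (y p.1 + y p.2) ^ 2 else 0) ≤
      (∑ p : V × V, if G.Adj p.1 p.2 then |y p.1 + y p.2| else 0) ^ 2)
    (hdt : DegTwo G)
    (P : ∀ x y : V, G.Walk x y) (hgeo : ∀ x y, (P x y).length = G.dist x y)
    (hlast : ∀ u w, G.Adj u w → (univ.filter fun x => x ≠ w ∧ (P x w).penultimate = u).card ≤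
      (Fintype.card V + 1) / 3)
    (L : ℕ) (ρ : V → V → ℝ) (hρ : ∀ u w, ρ u w = ρ w u)
    (hload : ∀ v, (load P v : ℝ) = L + (1 / 2) * ∑ w, if G.Adj v w then ρ v w else 0)
    (hl2 : (∑ p : V × V, if G.Adj p.1 p.2 then ρ p.1 p.2 ^ 2 else 0) ≤
      Fintype.card V * (Fintype.card V - 1) / 2) : HasUPS G := by
  classical
  set n := Fintype.card V with hn
  have hP : Paths P := fun x y _ => isPath_of_geo _ (hgeo x y)
  -- parity of n
  have hev : Even n := by
    have h1 := G.sum_degrees_eq_twice_card_edges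
    have h2 : ∀ v, G.degree v = 3 := by
      intro v
      rw [← h3 v, ← SimpleGraph.card_neighborFinset_eq_degree]
      congr 1
      ext w
      simp
    rw [sum_congr rfl fun v _ => h2 v, sum_const, card_univ, smul_eq_mul] at h1
    rw [Nat.even_iff]
    omega
  obtain ⟨hcev, hcn, hcsq⟩ := numbers h12 hev
  set c : ℕ := n - 2 * ((n + 1) / 3) with hcdef
  obtain ⟨c', hc'⟩ := hcev
  set C : ℕ := L + 3 * c' with hC
  -- real correction
  obtain ⟨k, hk1, hk2, hk3, hk4, hk5⟩ := real_corr_l2 G.Adj (fun u w h => h.symm)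
    (fun u h => h.ne rfl) (c : ℝ) (Nat.cast_nonneg c) ρ hρ 6 hineq (by
      refine hl2.trans ?_
      have h1 : ((n * (n - 1) : ℕ) : ℝ) ≤ ((12 * c ^ 2 : ℕ) : ℝ) := Nat.cast_le.2 hcsq
      rw [Nat.cast_mul, Nat.cast_sub (by omega), Nat.cast_mul, Nat.cast_pow] at h1
      push_cast at h1
      linarith)
  have hk6 : ∀ v, ∑ w, k v w = ((C : ℤ) - (load P v : ℤ) : ℤ) := by
    intro v
    rw [hk5 v]
    have h1 : (∑ w, if G.Adj v w then ((c : ℝ) / 2 - ρ v w / 2) else 0) =
        3 * ((c : ℝ) / 2) - (1 / 2) * ∑ w, if G.Adj v w then ρ v w else 0 := by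
      have h2 : (∑ w, if G.Adj v w then (1 : ℝ) else 0) = 3 := by
        rw [sum_boole, h3 v]
        norm_num
      rw [← h2, sum_mul, mul_sum, ← sum_sub_distrib]
      refine sum_congr rfl fun w _ => ?_
      by_cases h : G.Adj v w <;> simp [h]
      ring
    rw [h1]
    have h4 := hload v
    have h5 : (c : ℝ) = c' + c' := by rw [hc']; push_cast; ring
    push_cast
    rw [hC]
    push_cast
    linarith
  -- integral arcs
  obtain ⟨g, hg1, hg2, hg3⟩ := UPS3.bip_round k
  have hrow : ∀ v, ∑ w, g v w = (C : ℤ) - load P v := by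
    intro v
    have := hg2 v
    rw [hk6 v, Int.floor_intCast, Int.ceil_intCast] at this
    omega
  have hcol : ∀ v, ∑ w, g w v = (C : ℤ) - load P v := by
    intro v
    have := hg3 v
    rw [sum_congr rfl fun w _ => hk1 w v, hk6 v, Int.floor_intCast, Int.ceil_intCast] at this
    omega
  have hg0 : ∀ u w, 0 ≤ g u w := fun u w => (Int.floor_nonneg.2 (hk2 u w)).trans (hg1 u w).1
  have hgc : ∀ u w, g u w ≤ c := by
    intro u w
    refine (hg1 u w).2.trans ?_
    rw [Int.ceil_le]
    exact_mod_cast hk3 u w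
  have hgA : ∀ u w, ¬ G.Adj u w → g u w = 0 := by
    intro u w h
    have h1 := hg1 u w
    rw [hk4 u w h] at h1
    simp at h1
    omega
  let t : Sym2 V → ℕ := Sym2.lift ⟨fun u w => (g u w + g w u).toNat, fun u w =>
    congrArg Int.toNat (add_comm _ _)⟩
  have ht : ∀ u w, t s(u, w) = (g u w + g w u).toNat := fun u w => rfl
  have htG : ∀ e, t e ≠ 0 → e ∈ G.edgeSet := by
    intro e he
    induction e with
    | _ u w =>
      rw [SimpleGraph.mem_edgeSet]
      by_contra h
      apply he
      rw [ht, hgA u w h, hgA w u fun h' => h h'.symm]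
      rfl
  have htc : ∀ e, t e ≤ 2 * c := by
    intro e
    induction e with
    | _ u w =>
      rw [ht]
      have h1 := hgc u w
      have h2 := hgc w u
      omega
  obtain ⟨P', K, hP', hPP, hKt, hKC⟩ := half_fix C _ P hP t htG
    (fun x y hxy => by
      rw [hgeo, SimpleGraph.dist_eq_one_iff_adj, ← SimpleGraph.mem_edgeSet]
      refine htG _ ?_
      rintro h0
      rw [h0] at hxy
      exact absurd hxy (by decide))
    (fun v => by
      rw [sum_star]
      have h1 : ((∑ w, t s(v, w) : ℕ) : ℤ) = ∑ w, g v w + ∑ w, g w v := by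
        push_cast
        rw [← sum_add_distrib]
        refine sum_congr rfl fun w _ => ?_
        rw [ht, Int.toNat_of_nonneg]
        have h2 := hg0 v w
        have h3 := hg0 w v
        omega
      rw [hrow, hcol] at h1
      omega) rfl
  have hKc : ∀ e, K e ≤ c := by
    intro e
    have h1 := hKt e
    have h2 := htc e
    omega
  have hKG : ∀ e, K e ≠ 0 → e ∈ G.edgeSet := by
    intro e he
    refine htG e ?_
    have h1 := hKt e
    omega
  -- available roots
  let AV : V → V → Finset V := fun u w => univ.filter fun x =>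
    x ≠ u ∧ x ≠ w ∧ u ∉ (P x w).support ∧ w ∉ (P x u).support
  have hAVs : ∀ u w, AV u w = AV w u := by
    intro u w
    ext x
    simp only [AV, mem_filter, mem_univ, true_and]
    tauto
  have hAVc : ∀ u w, G.Adj u w → c ≤ (AV u w).card := by
    intro u w huw
    have h1 : (AV u w)ᶜ ⊆ (univ.filter fun x => x ≠ w ∧ (P x w).penultimate = u) ∪
        (univ.filter fun x => x ≠ u ∧ (P x u).penultimate = w) := by
      intro x hx
      rw [mem_compl] at hx
      simp only [AV, mem_filter, mem_univ, true_and, mem_union] at hx ⊢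
      by_cases hxu : x = u
      · left
        rw [hxu]
        exact ⟨huw.ne, geo_penultimate hc _ (hgeo u w) huw (SimpleGraph.Walk.start_mem_support _)⟩
      by_cases hxw : x = w
      · right
        rw [hxw]
        exact ⟨huw.ne.symm, geo_penultimate hc _ (hgeo w u) huw.symm
          (SimpleGraph.Walk.start_mem_support _)⟩
      by_cases h2 : u ∈ (P x w).support
      · left
        exact ⟨hxw, geo_penultimate hc _ (hgeo x w) huw h2⟩
      · right
        by_cases h3 : w ∈ (P x u).support
        · exact ⟨hxu, geo_penultimate hc _ (hgeo x u) huw.symm h3⟩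
        · exact absurd ⟨hxu, hxw, h2, h3⟩ hx
    have h2 := (card_le_card h1).trans (card_union_le _ _)
    have h3 := hlast u w huw
    have h4 := hlast w u huw.symm
    have h5 := card_compl_add_card (AV u w)
    omega
  let AVe : Sym2 V → Finset V := Sym2.lift ⟨AV, hAVs⟩
  have hR : ∀ e, ∃ R : Finset V, R ⊆ AVe e ∧ R.card = K e := by
    intro e
    induction e with
    | _ u w =>
      by_cases h : G.Adj u w
      · refine exists_subset_card_eq ?_
        exact (hKc _).trans (hAVc u w h)
      · refine ⟨∅, empty_subset _, ?_⟩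
        rw [card_empty]
        by_contra h0
        exact h (hKG _ (Ne.symm h0))
  choose R hRA hRK using hR
  -- toggling at every root
  let A : V → V → V → Prop := fun x u w => x ∈ R s(u, w)
  have hAAV : ∀ x u w, A x u w → G.Adj u w ∧ x ∈ AV u w := by
    intro x u w h
    refine ⟨?_, hRA _ h⟩
    refine hKG s(u, w) ?_
    rw [← hRK]
    exact (card_pos.2 ⟨x, h⟩).ne'
  have hq : ∀ x, ∃ q : ∀ z, G.Walk x z, (∀ z, x ≠ z → (q z).IsPath) ∧
      (∀ z, (∀ w, ¬ A x z w) → q z = P x z) ∧
      ∀ v (S : Finset V), (∀ w, w ∈ S ↔ A x v w) →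
        (univ.filter fun z => x ≠ z ∧ v ∈ (q z).support).card =
          (univ.filter fun z => x ≠ z ∧ v ∈ (P x z).support).card + S.card := by
    intro x
    refine hdt x (P x) (hgeo x) (A x) (fun u w h => ?_) (fun u w h => ?_) (fun v => ?_)
    · change x ∈ R s(w, u)
      rw [Sym2.eq_swap]
      exact h
    · obtain ⟨h1, h2⟩ := hAAV x u w h
      simp only [AV, mem_filter, mem_univ, true_and] at h2
      exact ⟨h1, h2.1, h2.2.2.1⟩
    · by_cases hxv : x = v
      · refine ⟨v, v, fun w hw => ?_⟩
        have h2 := (hAAV x v w hw).2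
        simp only [AV, mem_filter, mem_univ, true_and] at h2
        exact absurd hxv h2.1
      · -- the three neighbours
        have hnil : ¬ (P x v).Nil := SimpleGraph.Walk.not_nil_of_ne hxv
        set u := (P x v).penultimate with hu
        have hadj : G.Adj v u := ((P x v).adj_penultimate hnil).symm
        have h1 : ((univ.filter fun w => G.Adj v w).erase u).card = 2 := by
          rw [card_erase_of_mem (by simp [hadj]), h3 v]
        obtain ⟨a, b, _, hab⟩ := card_eq_two.1 h1
        refine ⟨a, b, fun w hw => ?_⟩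
        have h2 := hAAV x v w hw
        have h4 : w ∈ (univ.filter fun w => G.Adj v w).erase u := by
          rw [mem_erase]
          refine ⟨?_, by simp [h2.1]⟩
          rintro rfl
          have h5 := h2.2
          simp only [AV, mem_filter, mem_univ, true_and] at h5
          exact h5.2.2.2 (SimpleGraph.Walk.getVert_mem_support _ _)
        rw [hab] at h4
        simpa using h4
  choose q hq1 hq2 hq3 using hq
  -- neighbours of the root are untouched
  have huntouched : ∀ x z, G.Adj x z → q x z = P x z := by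
    intro x z hxz
    refine hq2 x z fun w hw => ?_
    obtain ⟨h1, h2⟩ := hAAV x z w hw
    simp only [AV, mem_filter, mem_univ, true_and] at h2
    obtain ⟨h4, h5⟩ := hg x z w hxz h1 h2.2.1
    have hnil : ¬ (P x w).Nil := SimpleGraph.Walk.not_nil_of_ne h2.2.1
    have h6 := (P x w).adj_penultimate hnil
    have h7 : G.Adj x (P x w).penultimate := by
      have h8 : (P x w).length = 2 := by rw [hgeo, h4]
      have h9 := (P x w).adj_getVert_succ (i := 0) (by omega)
      rw [SimpleGraph.Walk.getVert_zero] at h9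
      rw [SimpleGraph.Walk.penultimate, h8]
      exact h9
    have h8 := h5 _ h7 h6
    apply h2.2.2.1
    rw [← h8]
    exact SimpleGraph.Walk.getVert_mem_support _ _
  -- the final system
  let F : ∀ x y : V, G.Walk x y := fun x y => if G.Adj x y then P' x y else q x y
  refine ⟨F, fun x y hxy => ?_, C, fun v => ?_⟩
  · by_cases h : G.Adj x y
    · simp only [F, if_pos h]; exact hP' x y hxy
    · simp only [F, if_neg h]; exact hq1 x y hxy
  · rw [← hKC v, load_eq_sum, load_eq_sum, sum_star]
    have hdeg : ∀ x, (univ.filter fun z => x ≠ z ∧ v ∈ (q x z).support).card =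
        (univ.filter fun z => x ≠ z ∧ v ∈ (P x z).support).card +
          (univ.filter fun w => x ∈ R s(v, w)).card := by
      intro x
      exact hq3 x v _ fun w => by simp [A]
    have hsum : ∑ x, (univ.filter fun w => x ∈ R s(v, w)).card = ∑ w, K s(v, w) := by
      simp only [card_filter]
      rw [sum_comm]
      refine sum_congr rfl fun w _ => ?_
      rw [← hRK, sum_boole]
      simp
    rw [← hsum, ← sum_add_distrib]
    refine sum_congr rfl fun x _ => ?_
    have hx := hdeg x
    simp only [card_filter] at hx ⊢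
    have e1 : ∀ z, (if x ≠ z ∧ v ∈ (F x z).support then 1 else 0) +
        (if x ≠ z ∧ v ∈ (P x z).support then 1 else 0) =
        (if x ≠ z ∧ v ∈ (P' x z).support then 1 else 0) +
        (if x ≠ z ∧ v ∈ (q x z).support then 1 else 0) := by
      intro z
      by_cases h : G.Adj x z
      · simp only [F, if_pos h, huntouched x z h]
      · simp only [F, if_neg h, hPP x z h]
        ring
    have e2 := sum_congr (s₁ := (univ : Finset V)) rfl fun z _ => e1 z
    rw [sum_add_distrib, sum_add_distrib] at e2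
    omega

end Pool.Agent.UPS.A3
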