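import Pool.Agent.Lib.MP_876e19_co.Defs

/-!
# Arc counts of walks and decomposition of integral geodesic flows into geodesics (helper33)
-/

set_option autoImplicit false

namespace Pool.Agent.UPS.A3

open Finset

section acnt

variable {V : Type*} [DecidableEq V] {G : SimpleGraph V}

/-- number of times the walk uses the arc `(a,b)` -/
def acnt : ∀ {x y : V}, G.Walk x y → V → V → ℤ
  | _, _, .nil => fun _ _ => 0
  | x, _, .cons (v := x') _ p => fun a b => (if a = x ∧ b = x' then 1 else 0) + acnt p a b

@[simp] lemma acnt_nil (x a b : V) : acnt (SimpleGraph.Walk.nil : G.Walk x x) a b = 0 := rfl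

@[simp] lemma acnt_cons {x x' y : V} (h : G.Adj x x') (p : G.Walk x' y) (a b : V) :
    acnt (SimpleGraph.Walk.cons h p) a b = (if a = x ∧ b = x' then 1 else 0) + acnt p a b := rfl

lemma acnt_nonneg {x y : V} (p : G.Walk x y) (a b : V) : 0 ≤ acnt p a b := by
  induction p with
  | nil => simp
  | cons h p ih =>
    rw [acnt_cons]
    split_ifs <;> omega

/-- the arc `(u,w)` points towards `y` -/
def Dn (G : SimpleGraph V) (y u w : V) : Prop := G.Adj u w ∧ G.dist u y = G.dist w y + 1

omit [DecidableEq V] in
lemma geo_tail {x x' y : V} {h : G.Adj x x'} {p : G.Walk x' y}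
    (hl : (SimpleGraph.Walk.cons h p).length = G.dist x y) :
    p.length = G.dist x' y ∧ G.dist x y = G.dist x' y + 1 := by
  rw [SimpleGraph.Walk.length_cons] at hl
  have h1 := G.dist_le p
  obtain ⟨r, hr⟩ := SimpleGraph.Reachable.exists_walk_length_eq_dist ⟨p⟩
  have h2 := G.dist_le (SimpleGraph.Walk.cons h r)
  rw [SimpleGraph.Walk.length_cons, hr] at h2
  omega

lemma acnt_dn {x y : V} (p : G.Walk x y) (hl : p.length = G.dist x y) (a b : V)
    (hab : acnt p a b ≠ 0) : Dn G y a b ∧ G.dist a y ≤ G.dist x y := by
  induction p with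
  | nil => simp at hab
  | @cons x x' y h p ih =>
    obtain ⟨h1, h2⟩ := geo_tail hl
    rw [acnt_cons] at hab
    by_cases h3 : acnt p a b = 0
    · by_cases h4 : a = x ∧ b = x'
      · obtain ⟨rfl, rfl⟩ := h4
        exact ⟨⟨h, h2⟩, le_refl _⟩
      · rw [if_neg h4, h3] at hab
        exact absurd rfl hab
    · obtain ⟨h4, h5⟩ := ih h1 h3
      exact ⟨h4, by omega⟩

variable [Fintype V]

lemma acnt_net {x y : V} (p : G.Walk x y) (u : V) :
    ∑ b, acnt p u b - ∑ b, acnt p b u = (if u = x then 1 else 0) - (if u = y then 1 else 0) := by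
  induction p with
  | nil => simp
  | @cons x x' y h p ih =>
    simp only [acnt_cons, Finset.sum_add_distrib]
    have h1 : ∑ b, (if u = x ∧ b = x' then (1 : ℤ) else 0) = if u = x then 1 else 0 := by
      by_cases hu : u = x
      · simp [hu]
      · simp [hu]
    have h2 : ∑ b, (if b = x ∧ u = x' then (1 : ℤ) else 0) = if u = x' then 1 else 0 := by
      by_cases hu : u = x'
      · simp [hu]
      · simp [hu]
    rw [h1, h2]
    linarith

lemma acnt_visit {x y : V} (p : G.Walk x y) (hp : p.IsPath) (v : V) :
    (if v ∈ p.support then (1 : ℤ) else 0) = (if v = x then 1 else 0) + ∑ b, acnt p b v := by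
  induction p with
  | nil => simp
  | @cons x x' y h p ih =>
    rw [SimpleGraph.Walk.cons_isPath_iff] at hp
    have h1 := ih hp.1
    have h2 : ∑ b, (if b = x ∧ v = x' then (1 : ℤ) else 0) = if v = x' then 1 else 0 := by
      by_cases hu : v = x'
      · simp [hu]
      · simp [hu]
    simp only [acnt_cons, Finset.sum_add_distrib, h2]
    rw [← h1, SimpleGraph.Walk.support_cons]
    by_cases hv : v = x
    · subst hv
      rw [if_pos (List.mem_cons_self ..), if_pos rfl, if_neg hp.2, add_zero]
    · rw [if_neg hv, zero_add]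
      by_cases hv' : v ∈ p.support
      · rw [if_pos hv', if_pos (List.mem_cons_of_mem _ hv')]
      · rw [if_neg hv', if_neg]
        intro h'
        rcases List.mem_cons.1 h' with h' | h'
        · exact hv h'
        · exact hv' h'

omit [Fintype V] in
lemma acnt_last {x y : V} (p : G.Walk x y) (hp : p.IsPath) (hxy : x ≠ y) (u : V) :
    acnt p u y = if p.penultimate = u then 1 else 0 := by
  induction p with
  | nil => exact absurd rfl hxy
  | @cons x x' y h p ih =>
    rw [SimpleGraph.Walk.cons_isPath_iff] at hp
    by_cases hx : x' = y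
    · subst hx
      have hnil : p = SimpleGraph.Walk.nil := SimpleGraph.Walk.isPath_iff_eq_nil.1 hp.1
      subst hnil
      simp [eq_comm]
    · have h1 := ih hp.1 hx
      rw [acnt_cons, h1, if_neg (fun h' => hx h'.2.symm), zero_add]
      have : (SimpleGraph.Walk.cons h p).penultimate = p.penultimate := by
        cases p with
        | nil => exact absurd rfl hx
        | cons h' p' => rfl
      rw [this]

lemma acnt_length {x y : V} (p : G.Walk x y) : ∑ a, ∑ b, acnt p a b = p.length := by
  induction p with
  | nil => simp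
  | @cons x x' y h p ih =>
    simp only [acnt_cons, Finset.sum_add_distrib, ih, SimpleGraph.Walk.length_cons]
    have h1 : ∑ a, ∑ b, (if a = x ∧ b = x' then (1 : ℤ) else 0) = 1 := by
      rw [Finset.sum_eq_single x]
      · simp
      · intro a _ ha
        simp [ha]
      · intro h'; exact absurd (mem_univ _) h'
    rw [h1]; push_cast; ring

omit [DecidableEq V] in
/-- potential identity -/
lemma potential {R : Type*} [CommRing R] (y : V) (g : V → V → R)
    (hg : ∀ u w, ¬ Dn G y u w → g u w = 0) :
    ∑ u, ∑ w, g u w = ∑ u, (G.dist u y : R) * (∑ w, g u w - ∑ w, g w u) := by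
  have h1 : ∑ u, (G.dist u y : R) * (∑ w, g u w - ∑ w, g w u) =
      ∑ u, ∑ w, (G.dist u y : R) * g u w - ∑ u, ∑ w, (G.dist u y : R) * g w u := by
    rw [← Finset.sum_sub_distrib]
    refine Finset.sum_congr rfl fun u _ => ?_
    rw [mul_sub, Finset.mul_sum, Finset.mul_sum]
  rw [h1, Finset.sum_comm (f := fun u w => (G.dist u y : R) * g w u), ← Finset.sum_sub_distrib]
  refine Finset.sum_congr rfl fun u _ => ?_
  rw [← Finset.sum_sub_distrib]
  refine Finset.sum_congr rfl fun w _ => ?_
  by_cases h : Dn G y u w
  · rw [h.2]; push_cast; ring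
  · rw [hg u w h]; ring

/-- a nonnegative flow without sources vanishes -/
lemma flow_zero (y : V) (g : V → V → ℤ) (h0 : ∀ u w, 0 ≤ g u w)
    (hg : ∀ u w, ¬ Dn G y u w → g u w = 0)
    (hc : ∀ u, u ≠ y → ∑ w, g u w - ∑ w, g w u = 0) : ∀ u w, g u w = 0 := by
  have h1 := potential (G := G) y g hg
  have h2 : ∑ u, ((G.dist u y : ℕ) : ℤ) * (∑ w, g u w - ∑ w, g w u) = 0 := by
    refine Finset.sum_eq_zero fun u _ => ?_
    by_cases hu : u = y
    · rw [hu, SimpleGraph.dist_self]; simp
    · rw [hc u hu, mul_zero]
  rw [h2, Finset.sum_eq_zero_iff_of_nonneg (fun u _ => Finset.sum_nonneg fun w _ => h0 u w)] at h1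
  intro u w
  have h3 := h1 u (mem_univ _)
  rw [Finset.sum_eq_zero_iff_of_nonneg (fun w _ => h0 u w)] at h3
  exact h3 w (mem_univ _)

/-- extraction of a geodesic -/
lemma extract (y : V) (g : V → V → ℤ) (h0 : ∀ u w, 0 ≤ g u w)
    (hg : ∀ u w, ¬ Dn G y u w → g u w = 0)
    (hc : ∀ u, u ≠ y → ∑ w, g w u ≤ ∑ w, g u w) :
    ∀ (n : ℕ) (x : V), G.dist x y = n → (x ≠ y → 0 < ∑ w, g x w) →
      ∃ p : G.Walk x y, p.length = G.dist x y ∧ ∀ a b, acnt p a b ≤ g a b := by
  intro n
  induction n with
  | zero =>
    intro x hx hpos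
    by_cases hxy : x = y
    · subst hxy
      exact ⟨SimpleGraph.Walk.nil, by simp, fun a b => by simpa using h0 a b⟩
    · exfalso
      have h1 := hpos hxy
      have h2 : ∑ w, g x w = 0 := by
        refine Finset.sum_eq_zero fun w _ => hg x w ?_
        intro h; have := h.2; omega
      omega
  | succ n ih =>
    intro x hx hpos
    have hxy : x ≠ y := by
      rintro rfl
      rw [SimpleGraph.dist_self] at hx; omega
    have h1 := hpos hxy
    obtain ⟨w, _, hw⟩ := Finset.exists_ne_zero_of_sum_ne_zero h1.ne'
    have hdn : Dn G y x w := by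
      by_contra h; exact hw (hg x w h)
    have hw1 : 1 ≤ g x w := by have := h0 x w; omega
    obtain ⟨p, hp1, hp2⟩ := ih w (by have := hdn.2; omega) (fun hwy => by
      have h2 := hc w hwy
      have h3 : g x w ≤ ∑ v, g v w := Finset.single_le_sum (f := fun v => g v w)
        (fun v _ => h0 v w) (mem_univ x)
      omega)
    refine ⟨SimpleGraph.Walk.cons hdn.1 p, ?_, ?_⟩
    · rw [SimpleGraph.Walk.length_cons, hp1, hdn.2]
    · intro a b
      rw [acnt_cons]
      by_cases hab : a = x ∧ b = w
      · obtain ⟨rfl, rfl⟩ := hab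
        have : acnt p a b = 0 := by
          by_contra hne
          have := (acnt_dn p hp1 a b hne).2
          have := hdn.2
          omega
        rw [if_pos ⟨rfl, rfl⟩, this]
        omega
      · rw [if_neg hab, zero_add]
        exact hp2 a b

/-- decomposition of an integral flow into geodesics -/
theorem flow_decomp (y : V) (X : Finset V) : ∀ (g : V → V → ℤ), (∀ u w, 0 ≤ g u w) →
    (∀ u w, ¬ Dn G y u w → g u w = 0) →
    (∀ u, u ≠ y → ∑ w, g u w - ∑ w, g w u = if u ∈ X then 1 else 0) → y ∉ X →
    ∃ P : ∀ x : V, x ∈ X → G.Walk x y, (∀ x hx, (P x hx).length = G.dist x y) ∧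
      ∀ a b, ∑ x ∈ X.attach, acnt (P x.1 x.2) a b = g a b := by
  induction X using Finset.induction_on with
  | empty =>
    intro g h0 hg hc _
    refine ⟨fun x hx => absurd hx (by simp), fun x hx => absurd hx (by simp), ?_⟩
    intro a b
    rw [flow_zero y g h0 hg (fun u hu => by simpa using hc u hu) a b]
    simp
  | insert x X hx ih =>
    intro g h0 hg hc hy
    have hxy : x ≠ y := fun h => hy (by rw [← h]; exact mem_insert_self _ _)
    obtain ⟨p, hp1, hp2⟩ := extract y g h0 hg (fun u hu => by
      have := hc u hu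
      split_ifs at this <;> omega) _ x rfl (fun _ => by
      have h1 := hc x hxy
      rw [if_pos (mem_insert_self _ _)] at h1
      have h2 : 0 ≤ ∑ w, g w x := Finset.sum_nonneg fun w _ => h0 w x
      omega)
    obtain ⟨P, hP1, hP2⟩ := ih (fun a b => g a b - acnt p a b)
      (fun a b => by have := hp2 a b; show 0 ≤ g a b - acnt p a b; omega)
      (fun a b hab => by
        have h1 : acnt p a b = 0 := by
          by_contra hne; exact hab (acnt_dn p hp1 a b hne).1
        simp only [hg a b hab, h1]; ring)
      (fun u hu => by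
        have h1 := hc u hu
        have h2 := acnt_net p u
        simp only [Finset.sum_sub_distrib]
        rw [if_neg hu] at h2
        have h3 : (if u ∈ insert x X then (1 : ℤ) else 0) =
            (if u = x then 1 else 0) + (if u ∈ X then 1 else 0) := by
          by_cases hux : u = x
          · subst hux; simp [hx]
          · simp [hux]
        rw [h3] at h1
        linarith)
      (fun h => hy (mem_insert_of_mem h))
    classical
    refine ⟨fun z hz => if h : z = x then p.copy h.symm rfl
      else P z ((mem_insert.1 hz).resolve_left h), ?_, ?_⟩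
    · intro z hz
      by_cases h : z = x
      · subst h; simp [hp1]
      · simp only [dif_neg h]
        exact hP1 z _
    · intro a b
      have hsum : ∀ (f : ∀ z, z ∈ insert x X → ℤ), ∑ z ∈ (insert x X).attach, f z.1 z.2 =
          f x (mem_insert_self _ _) + ∑ z ∈ X.attach, f z.1 (mem_insert_of_mem z.2) := by
        intro f
        rw [Finset.attach_insert, Finset.sum_insert]
        · rw [Finset.sum_image]
          intro z _ z' _ h
          have := congrArg (fun t : {t // t ∈ insert x X} => t.1) h
          exact Subtype.ext this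
        · intro h
          rw [mem_image] at h
          obtain ⟨z, _, hz⟩ := h
          have h3 : z.1 = x := congrArg (fun t : {t // t ∈ insert x X} => t.1) hz
          exact hx (h3 ▸ z.2)
      rw [hsum (fun z hz => acnt (if h : z = x then p.copy h.symm rfl
        else P z ((mem_insert.1 hz).resolve_left h)) a b)]
      have h1 := hP2 a b
      have h2 : ∑ z ∈ X.attach, acnt (if h : z.1 = x then p.copy h.symm rfl
          else P z.1 ((mem_insert.1 (mem_insert_of_mem z.2)).resolve_left h)) a b =
          ∑ z ∈ X.attach, acnt (P z.1 z.2) a b := by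
        refine Finset.sum_congr rfl fun z _ => ?_
        have hz : z.1 ≠ x := fun h => hx (by rw [← h]; exact z.2)
        rw [dif_neg hz]
      rw [h2, h1]
      simp

end acnt

end Pool.Agent.UPS.A3
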