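import Pool.Agent.Lib.MP_876e19_co_arc3.FlowDec
import Pool.Agent.Lib.MP_876e19_co.Family

/-!
# The Aut-invariant real geodesic flow (helper33)
-/

set_option autoImplicit false

namespace Pool.Agent.UPS.A3

open Finset

variable {V : Type*}

lemma dist_aut {G : SimpleGraph V} (φ : G ≃g G) (x y : V) :
    G.dist (φ x) (φ y) = G.dist x y := by
  have key : ∀ (ψ : G ≃g G) (a b : V), G.Reachable a b → G.dist (ψ a) (ψ b) ≤ G.dist a b := by
    intro ψ a b hab
    obtain ⟨p, hp⟩ := hab.exists_walk_length_eq_dist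
    rw [← hp, ← SimpleGraph.Walk.length_map ψ.toHom p]
    exact SimpleGraph.dist_le _
  by_cases hr : G.Reachable x y
  · apply le_antisymm (key φ x y hr)
    have h1 : G.Reachable (φ x) (φ y) := by
      obtain ⟨p⟩ := hr
      exact ⟨p.map φ.toHom⟩
    have := key φ.symm _ _ h1
    simpa using this
  · have h1 : ¬ G.Reachable (φ x) (φ y) := by
      rintro ⟨p⟩
      apply hr
      have := (p.map φ.symm.toHom).reachable
      simpa using this
    rw [SimpleGraph.dist_eq_zero_of_not_reachable hr,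
      SimpleGraph.dist_eq_zero_of_not_reachable h1]

lemma dn_aut {G : SimpleGraph V} (φ : G ≃g G) (y u w : V) :
    Dn G (φ y) (φ u) (φ w) ↔ Dn G y u w := by
  unfold Dn
  rw [dist_aut, dist_aut, φ.map_adj_iff]

lemma sum_dist_aut [Fintype V] {G : SimpleGraph V} (hT : VT G) (v v' : V) :
    ∑ x, G.dist x v = ∑ x, G.dist x v' := by
  obtain ⟨φ, hφ⟩ := hT v v'
  rw [← hφ, ← Equiv.sum_comp φ.toEquiv (fun x => G.dist x (φ v))]
  refine Finset.sum_congr rfl fun x _ => ?_
  exact (dist_aut φ x v).symm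

/-- an Aut-invariant real geodesic flow into every target -/
theorem exists_flow [Fintype V] [DecidableEq V] {G : SimpleGraph V} (hc : G.Connected)
    (hT : VT G) :
    ∃ F : V → V → V → ℝ, (∀ y u w, 0 ≤ F y u w) ∧
      (∀ y u w, F y u w ≠ 0 → G.Adj u w ∧ G.dist u y = G.dist w y + 1) ∧
      (∀ y u, u ≠ y → ∑ w, F y u w = 1 + ∑ w, F y w u) ∧
      (∀ v, ∑ y, ∑ w, F y v w = ((∑ x, G.dist x v : ℕ) : ℝ)) ∧
      (∀ (φ : G ≃g G) y u w, F (φ y) (φ u) (φ w) = F y u w) := by
  classical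
  have hw : ∀ x y : V, ∃ p : G.Walk x y, p.length = G.dist x y :=
    fun x y => (hc.preconnected x y).exists_walk_length_eq_dist
  choose P hP using hw
  let F0 : V → V → V → ℝ := fun y u w => ∑ x, (acnt (P x y) u w : ℝ)
  have h0 : ∀ y u w, 0 ≤ F0 y u w := fun y u w =>
    Finset.sum_nonneg fun x _ => by exact_mod_cast acnt_nonneg _ _ _
  have h1 : ∀ y u w, F0 y u w ≠ 0 → Dn G y u w := by
    intro y u w h
    obtain ⟨x, _, hx⟩ := Finset.exists_ne_zero_of_sum_ne_zero h
    exact (acnt_dn (P x y) (hP x y) u w (by exact_mod_cast hx)).1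
  have h2 : ∀ y u, u ≠ y → ∑ w, F0 y u w - ∑ w, F0 y w u = 1 := by
    intro y u hu
    have : ∀ x, ∑ w, (acnt (P x y) u w : ℝ) - ∑ w, (acnt (P x y) w u : ℝ) =
        if u = x then 1 else 0 := by
      intro x
      have := acnt_net (P x y) u
      rw [if_neg hu, sub_zero] at this
      exact_mod_cast this
    simp only [F0]
    rw [Finset.sum_comm, Finset.sum_comm (f := fun w x => (acnt (P x y) w u : ℝ)),
      ← Finset.sum_sub_distrib]
    simp only [this]
    rw [Finset.sum_ite_eq]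
    simp
  have h3 : ∀ y, ∑ u, ∑ w, F0 y u w = ((∑ x, G.dist x y : ℕ) : ℝ) := by
    intro y
    simp only [F0]
    have : ∀ x, ∑ u, ∑ w, (acnt (P x y) u w : ℝ) = (G.dist x y : ℝ) := by
      intro x
      have := acnt_length (P x y)
      rw [hP] at this
      exact_mod_cast this
    have e1 : ∑ u, ∑ w, ∑ x, (acnt (P x y) u w : ℝ) = ∑ x, ∑ u, ∑ w, (acnt (P x y) u w : ℝ) := by
      have : ∀ u, ∑ w, ∑ x, (acnt (P x y) u w : ℝ) = ∑ x, ∑ w, (acnt (P x y) u w : ℝ) :=
        fun u => Finset.sum_comm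
      simp only [this]
      exact Finset.sum_comm
    rw [e1]
    simp only [this]
    push_cast
    rfl
  have hΓ : (0 : ℝ) < Fintype.card (G ≃g G) := by exact_mod_cast Fintype.card_pos
  let F : V → V → V → ℝ := fun y u w => (∑ γ : G ≃g G, F0 (γ y) (γ u) (γ w)) /
    Fintype.card (G ≃g G)
  have hinv : ∀ (φ : G ≃g G) y u w, F (φ y) (φ u) (φ w) = F y u w := by
    intro φ y u w
    simp only [F]
    congr 1
    exact Equiv.sum_comp (Equiv.mulRight φ) (fun γ : G ≃g G => F0 (γ y) (γ u) (γ w))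
  have hF0 : ∀ y u w, 0 ≤ F y u w := fun y u w =>
    div_nonneg (Finset.sum_nonneg fun γ _ => h0 _ _ _) hΓ.le
  have hnet : ∀ y u, u ≠ y → ∑ w, F y u w - ∑ w, F y w u = 1 := by
    intro y u hu
    simp only [F]
    rw [← Finset.sum_div, ← Finset.sum_div, ← sub_div, Finset.sum_comm,
      Finset.sum_comm (f := fun w (γ : G ≃g G) => F0 (γ y) (γ w) (γ u)), ← Finset.sum_sub_distrib]
    have : ∀ γ : G ≃g G, ∑ w, F0 (γ y) (γ u) (γ w) - ∑ w, F0 (γ y) (γ w) (γ u) = 1 := by
      intro γ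
      have e1 := Equiv.sum_comp γ.toEquiv (fun w => F0 (γ y) (γ u) w)
      have e2 := Equiv.sum_comp γ.toEquiv (fun w => F0 (γ y) w (γ u))
      have e3 := h2 (γ y) (γ u) (fun h => hu (γ.injective h))
      rw [← e1, ← e2] at e3
      exact e3
    simp only [this, Finset.sum_const, card_univ, nsmul_eq_mul, mul_one]
    field_simp
  have htot : ∀ y, ∑ u, ∑ w, F y u w = ((∑ x, G.dist x y : ℕ) : ℝ) := by
    intro y
    simp only [F, ← Finset.sum_div]
    have : ∀ γ : G ≃g G, ∑ u, ∑ w, F0 (γ y) (γ u) (γ w) = ((∑ x, G.dist x y : ℕ) : ℝ) := by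
      intro γ
      have e1 : ∀ u, ∑ w, F0 (γ y) (γ u) (γ w) = ∑ w, F0 (γ y) (γ u) w := fun u =>
        Equiv.sum_comp γ.toEquiv (fun w => F0 (γ y) (γ u) w)
      simp only [e1]
      have e2 := Equiv.sum_comp γ.toEquiv (fun u => ∑ w, F0 (γ y) u w)
      have e3 : ∑ u, ∑ w, F0 (γ y) (γ u) w = ∑ u, ∑ w, F0 (γ y) u w := e2
      rw [e3, h3, sum_dist_aut hT (γ y) y]
    have e4 : ∑ u, ∑ w, ∑ γ : G ≃g G, F0 (γ y) (γ u) (γ w) =
        ∑ γ : G ≃g G, ∑ u, ∑ w, F0 (γ y) (γ u) (γ w) := by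
      have : ∀ u, ∑ w, ∑ γ : G ≃g G, F0 (γ y) (γ u) (γ w) =
          ∑ γ : G ≃g G, ∑ w, F0 (γ y) (γ u) (γ w) := fun u => Finset.sum_comm
      simp only [this]
      exact Finset.sum_comm
    rw [e4]
    simp only [this, Finset.sum_const, card_univ, nsmul_eq_mul]
    field_simp
  refine ⟨F, hF0, ?_, ?_, ?_, hinv⟩
  · intro y u w h
    have hne : ∑ γ : G ≃g G, F0 (γ y) (γ u) (γ w) ≠ 0 := by
      intro h'
      apply h
      simp only [F]
      rw [h', zero_div]
    obtain ⟨γ, _, hγ⟩ := Finset.exists_ne_zero_of_sum_ne_zero hne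
    exact (dn_aut γ y u w).1 (h1 _ _ _ hγ)
  · intro y u hu
    linarith [hnet y u hu]
  · -- constant load
    have hconst : ∀ v v', ∑ y, ∑ w, F y v w = ∑ y, ∑ w, F y v' w := by
      intro v v'
      obtain ⟨φ, hφ⟩ := hT v v'
      rw [← hφ, ← Equiv.sum_comp φ.toEquiv (fun y => ∑ w, F y (φ v) w)]
      refine Finset.sum_congr rfl fun y _ => ?_
      rw [← Equiv.sum_comp φ.toEquiv (fun w => F (φ.toEquiv y) (φ v) w)]
      exact Finset.sum_congr rfl fun w _ => (hinv φ y v w).symm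
    intro v
    have e1 : ∑ v', ∑ y, ∑ w, F y v' w = ∑ y, ∑ v', ∑ w, F y v' w := Finset.sum_comm
    have e2 : ∑ y, ∑ v', ∑ w, F y v' w = ∑ y : V, ((∑ x, G.dist x v : ℕ) : ℝ) := by
      refine Finset.sum_congr rfl fun y _ => ?_
      rw [htot y, sum_dist_aut hT y v]
    have e3 : ∑ v', ∑ y, ∑ w, F y v' w = (Fintype.card V : ℝ) * ∑ y, ∑ w, F y v w := by
      rw [Finset.sum_congr rfl fun v' _ => hconst v' v, Finset.sum_const, card_univ, nsmul_eq_mul]
    have hV : (0 : ℝ) < Fintype.card V := by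
      exact_mod_cast Fintype.card_pos_iff.2 ⟨v⟩
    rw [e3, e2, Finset.sum_const, card_univ, nsmul_eq_mul] at e1
    exact mul_left_cancel₀ hV.ne' e1

/-- the last arcs of a flow carry everything -/
lemma sum_last [Fintype V] [DecidableEq V] {G : SimpleGraph V} (F : V → V → V → ℝ)
    (hsupp : ∀ y u w, F y u w ≠ 0 → G.Adj u w ∧ G.dist u y = G.dist w y + 1)
    (hcons : ∀ y u, u ≠ y → ∑ w, F y u w = 1 + ∑ w, F y w u) (y : V) :
    ∑ u, F y u y = (Fintype.card V : ℝ) - 1 := by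
  have h1 : ∑ u, (∑ w, F y u w - ∑ w, F y w u) = 0 := by
    rw [Finset.sum_sub_distrib, Finset.sum_comm (f := fun u w => F y w u), sub_self]
  rw [← Finset.add_sum_erase _ _ (mem_univ y)] at h1
  have h2 : ∑ w, F y y w = 0 := by
    refine Finset.sum_eq_zero fun w _ => ?_
    by_contra h
    have := (hsupp y y w h).2
    rw [SimpleGraph.dist_self] at this
    omega
  have h3 : ∑ u ∈ univ.erase y, (∑ w, F y u w - ∑ w, F y w u) = (Fintype.card V : ℝ) - 1 := by
    have : ∀ u ∈ univ.erase y, (∑ w, F y u w - ∑ w, F y w u) = 1 := by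
      intro u hu
      rw [hcons y u (Finset.ne_of_mem_erase hu)]
      ring
    rw [Finset.sum_congr rfl this, Finset.sum_const, Finset.card_erase_of_mem (mem_univ _),
      card_univ, nsmul_eq_mul, mul_one, Nat.cast_sub (Fintype.card_pos_iff.2 ⟨y⟩), Nat.cast_one]
  rw [h2, h3] at h1
  linarith

open Classical in
/-- last arcs of an invariant flow in an arc-transitive graph -/
lemma last_arc [Fintype V] [DecidableEq V] {G : SimpleGraph V}
    (harc : ∀ a b a' b', G.Adj a b → G.Adj a' b' → ∃ f : G ≃g G, f a = a' ∧ f b = b')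
    {q : ℕ} (hreg : ∀ v, (univ.filter fun w => G.Adj v w).card = q) (F : V → V → V → ℝ)
    (hsupp : ∀ y u w, F y u w ≠ 0 → G.Adj u w ∧ G.dist u y = G.dist w y + 1)
    (hcons : ∀ y u, u ≠ y → ∑ w, F y u w = 1 + ∑ w, F y w u)
    (hinv : ∀ (φ : G ≃g G) y u w, F (φ y) (φ u) (φ w) = F y u w) {u y : V} (huy : G.Adj u y) :
    (q : ℝ) * F y u y = (Fintype.card V : ℝ) - 1 := by
  rw [← sum_last F hsupp hcons y]
  have h1 : ∀ w, F y w y = if G.Adj y w then F y u y else 0 := by
    intro w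
    split_ifs with h
    · obtain ⟨φ, e1, e2⟩ := harc u y w y huy h.symm
      have := hinv φ y u y
      rw [e1, e2] at this
      exact this
    · by_contra h'
      exact h (hsupp y w y h').1.symm
  rw [Finset.sum_congr rfl fun w _ => h1 w, ← Finset.sum_filter, Finset.sum_const, nsmul_eq_mul,
    ← hreg y]

end Pool.Agent.UPS.A3
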