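import Pool.Agent.Lib.MP_876e19_co_arc3.FlowBase
import Pool.Agent.Lib.MP_876e19_co4.FlowRound

/-!
# The geodesic base of an arc-transitive graph, unconditional (helper33, helper22)
-/

set_option autoImplicit false

namespace Pool.Agent.UPS.A3

open Finset

open Classical in
/-- the geodesic base of a connected arc-transitive graph of valency `q` -/
theorem flow_base_arc {V : Type*} [Fintype V] [DecidableEq V] {G : SimpleGraph V}
    (hc : G.Connected)
    (harc : ∀ a b a' b', G.Adj a b → G.Adj a' b' → ∃ f : G ≃g G, f a = a' ∧ f b = b')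
    {q : ℕ} (hq : 1 ≤ q) (hreg : ∀ v, (univ.filter fun w => G.Adj v w).card = q) :
    ∃ P : ∀ x y : V, G.Walk x y, (∀ x y, (P x y).length = G.dist x y) ∧
      (∀ u w, G.Adj u w → (univ.filter fun x => x ≠ w ∧ (P x w).penultimate = u).card ≤
        (Fintype.card V + q - 2) / q) ∧
      ∃ (L : ℕ) (rho : V → V → ℝ), (∀ u w, rho u w = rho w u) ∧
        (∀ v, (load P v : ℝ) = L + (1 / 2) * ∑ w, if G.Adj v w then rho v w else 0) ∧
        (∑ p : V × V, if G.Adj p.1 p.2 then rho p.1 p.2 ^ 2 else 0) ≤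
          (Fintype.card V : ℝ) * (Fintype.card V - 1) / 2 :=
  flow_base_gen (fun F L h1 h2 h3 h4 => FR.flow_round_all G F L h1 h2 h3 h4) hc harc hq hreg

end Pool.Agent.UPS.A3
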