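import Pool.Agent.Lib.MP_876e19_co_arc3.FlowEq

/-!
# Integral geodesic flows give systems of geodesics (helper33)
-/

set_option autoImplicit false

namespace Pool.Agent.UPS.A3

open Finset

variable {V : Type*} [Fintype V] [DecidableEq V] {G : SimpleGraph V}

open Classical in
/-- the load as a double sum -/
lemma load_eq_sum (P : ∀ x y : V, G.Walk x y) (v : V) :
    load P v = ∑ y, ∑ x ∈ univ.erase y, (if v ∈ (P x y).support then 1 else 0) := by
  unfold load
  have h1 : {p : V × V | p.1 ≠ p.2 ∧ v ∈ (P p.1 p.2).support} =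
      ((univ.filter fun p : V × V => p.1 ≠ p.2 ∧ v ∈ (P p.1 p.2).support : Finset (V × V)) :
        Set (V × V)) := by
    ext p; simp
  rw [h1, Set.ncard_coe_finset, Finset.card_filter, Fintype.sum_prod_type, Finset.sum_comm]
  refine Finset.sum_congr rfl fun y _ => ?_
  rw [← Finset.add_sum_erase _ _ (mem_univ y), if_neg (fun h => h.1 rfl), zero_add]
  refine Finset.sum_congr rfl fun x hx => ?_
  have hxy := Finset.ne_of_mem_erase hx
  by_cases h : v ∈ (P x y).support
  · rw [if_pos h, if_pos ⟨hxy, h⟩]
  · rw [if_neg h, if_neg (fun h' => h h'.2)]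

open Classical in
/-- integral geodesic flows are realised by geodesics -/
theorem walks_of_flow (F : V → V → V → ℕ)
    (hsupp : ∀ y u w, F y u w ≠ 0 → G.Adj u w ∧ G.dist u y = G.dist w y + 1)
    (hcons : ∀ y u, u ≠ y → ∑ w, F y u w = 1 + ∑ w, F y w u) :
    ∃ P : ∀ x y : V, G.Walk x y, (∀ x y, (P x y).length = G.dist x y) ∧
      (∀ u w, (univ.filter fun x => x ≠ w ∧ (P x w).penultimate = u).card = F w u w) ∧
      ∀ v, load P v = (Fintype.card V - 1) + ∑ y, ∑ w, F y v w := by
  have key : ∀ y : V, ∃ P : ∀ x : V, x ∈ univ.erase y → G.Walk x y,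
      (∀ x hx, (P x hx).length = G.dist x y) ∧
      ∀ a b, ∑ x ∈ (univ.erase y).attach, acnt (P x.1 x.2) a b = (F y a b : ℤ) := by
    intro y
    refine flow_decomp y (univ.erase y) (fun u w => (F y u w : ℤ)) (fun u w => by positivity)
      (fun u w h => ?_) (fun u hu => ?_) (by simp)
    · by_contra h'
      exact h (hsupp y u w (by exact_mod_cast h'))
    · rw [if_pos (mem_erase.2 ⟨hu, mem_univ _⟩)]
      have := hcons y u hu
      have h2 : ((∑ w, F y u w : ℕ) : ℤ) = ((1 + ∑ w, F y w u : ℕ) : ℤ) := by rw [this]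
      push_cast at h2
      linarith
  choose Q hQ1 hQ2 using key
  let P : ∀ x y : V, G.Walk x y := fun x y =>
    if h : x = y then (SimpleGraph.Walk.nil : G.Walk x x).copy rfl h
    else Q y x (mem_erase.2 ⟨h, mem_univ _⟩)
  have hP0 : ∀ x y (h : x ≠ y), P x y = Q y x (mem_erase.2 ⟨h, mem_univ _⟩) := by
    intro x y h
    simp only [P]
    rw [dif_neg h]
  have hlen : ∀ x y, (P x y).length = G.dist x y := by
    intro x y
    by_cases h : x = y
    · subst h
      simp [P]
    · rw [hP0 x y h]
      exact hQ1 y x _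
  have hpath : ∀ x y, (P x y).IsPath := fun x y =>
    SimpleGraph.Walk.isPath_of_length_eq_dist _ (hlen x y)
  have hsum : ∀ y a b, ∑ x ∈ univ.erase y, acnt (P x y) a b = (F y a b : ℤ) := by
    intro y a b
    rw [← hQ2 y a b, ← Finset.sum_attach (univ.erase y) (fun x => acnt (P x y) a b)]
    refine Finset.sum_congr rfl fun x _ => ?_
    rw [hP0 x.1 y (Finset.ne_of_mem_erase x.2)]
  refine ⟨P, hlen, ?_, ?_⟩
  · intro u w
    have h1 : ((univ.filter fun x => x ≠ w ∧ (P x w).penultimate = u).card : ℤ) = F w u w := by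
      rw [← hsum w u w, Finset.card_filter]
      push_cast
      rw [← Finset.add_sum_erase _ _ (mem_univ w), if_neg (fun h => h.1 rfl), zero_add]
      refine Finset.sum_congr rfl fun x hx => ?_
      have hxw := Finset.ne_of_mem_erase hx
      rw [acnt_last (P x w) (hpath x w) hxw u]
      by_cases h : (P x w).penultimate = u
      · rw [if_pos h, if_pos ⟨hxw, h⟩]
      · rw [if_neg h, if_neg (fun h' => h h'.2)]
    exact_mod_cast h1
  · intro v
    have h1 : ((load P v : ℕ) : ℤ) = ((Fintype.card V - 1 + ∑ y, ∑ w, F y v w : ℕ) : ℤ) := by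
      rw [load_eq_sum]
      push_cast
      rw [← Finset.add_sum_erase _ _ (mem_univ v)]
      have h2 : ∑ x ∈ univ.erase v, (if v ∈ (P x v).support then (1 : ℤ) else 0) =
          ((Fintype.card V - 1 : ℕ) : ℤ) := by
        rw [Finset.sum_congr rfl fun x _ => if_pos (P x v).end_mem_support, Finset.sum_const,
          Finset.card_erase_of_mem (mem_univ _), card_univ, nsmul_eq_mul, mul_one]
      have h3 : ∀ y ∈ univ.erase v, ∑ x ∈ univ.erase y,
          (if v ∈ (P x y).support then (1 : ℤ) else 0) = ∑ w, (F y v w : ℤ) := by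
        intro y hy
        have hvy : v ≠ y := (Finset.ne_of_mem_erase hy).symm
        have h4 : ∀ x, (if v ∈ (P x y).support then (1 : ℤ) else 0) =
            (if v = x then 1 else 0) + ∑ b, acnt (P x y) b v := by
          intro x
          rw [← acnt_visit (P x y) (hpath x y) v]
        rw [Finset.sum_congr rfl fun x _ => h4 x, Finset.sum_add_distrib, Finset.sum_comm,
          Finset.sum_congr rfl fun b _ => hsum y b v]
        have h5 : ∑ x ∈ univ.erase y, (if v = x then (1 : ℤ) else 0) = 1 := by
          rw [Finset.sum_ite_eq, if_pos (mem_erase.2 ⟨hvy, mem_univ _⟩)]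
        rw [h5]
        have := hcons y v hvy
        have h6 : ((∑ w, F y v w : ℕ) : ℤ) = ((1 + ∑ w, F y w v : ℕ) : ℤ) := by rw [this]
        push_cast at h6
        linarith
      rw [h2, Finset.sum_congr rfl h3,
        ← Finset.add_sum_erase _ (fun y => ∑ w, (F y v w : ℤ)) (mem_univ v)]
      have h7 : ∑ w, (F v v w : ℤ) = 0 := by
        refine Finset.sum_eq_zero fun w _ => ?_
        by_contra h
        have := (hsupp v v w (by exact_mod_cast h)).2
        rw [SimpleGraph.dist_self] at this
        omega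
      rw [h7, zero_add]
    exact_mod_cast h1

end Pool.Agent.UPS.A3
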