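import Pool.Agent.Lib.MP_876e19_co.Parity
import Pool.Agent.Lib.MP_876e19_co.Toggle

/-!
# Removing the half-integral part of a correction by rerouting direct paths (helper59, TT876)

`t e` is twice the wanted number of toggles of the edge `e`. The edges with `t e` odd form an even
graph; around a cycle of it one direct path `a → b` is rerouted the long way.
-/

set_option autoImplicit false

open Finset

namespace Pool.Agent.UPS.A3

open Pool.Agent.UPS Pool.Agent.UPS.Parity Pool.Agent.UPS.Toggle

variable {V : Type*}

lemma count_at [Fintype V] [DecidableEq V] {G : SimpleGraph V} {a b : V} (q : G.Walk a b)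
    (hq : q.IsPath) (v : V) :
    (∑ e ∈ univ.filter (fun e : Sym2 V => v ∈ e), if e ∈ q.edges then 1 else 0) +
      ((if v = a then 1 else 0) + (if v = b then 1 else 0)) =
      2 * (if v ∈ q.support then 1 else 0) := by
  rw [← countP_eq _ hq.isTrail.edges_nodup, ← path_identity q hq v]
  ring

/-- one rerouting -/
lemma reroute [Fintype V] [DecidableEq V] {G : SimpleGraph V} (P : ∀ x y : V, G.Walk x y)
    (hP : Paths P) {a b : V} (hab : a ≠ b) (hl : (P a b).length = 1) (q : G.Walk a b)
    (hq : q.IsPath) :
    ∃ P' : ∀ x y : V, G.Walk x y, Paths P' ∧ (∀ x y, ¬ (x = a ∧ y = b) → P' x y = P x y) ∧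
      ∀ v, load P' v + ((if v = a then 1 else 0) + (if v = b then 1 else 0)) =
        load P v + (if v ∈ q.support then 1 else 0) := by
  classical
  let P' : ∀ x y : V, G.Walk x y := Function.update P a (Function.update (P a) b q)
  have h1 : P' a b = q := by
    change (Function.update P a (Function.update (P a) b q)) a b = q
    rw [Function.update_self, Function.update_self]
  have h2 : ∀ x y, ¬ (x = a ∧ y = b) → P' x y = P x y := by
    intro x y h
    by_cases hx : x = a
    · subst hx
      have hy : y ≠ b := fun hy => h ⟨rfl, hy⟩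
      change (Function.update P x (Function.update (P x) b q)) x y = P x y
      rw [Function.update_self, Function.update_of_ne hy]
    · change (Function.update P a (Function.update (P a) b q)) x y = P x y
      rw [Function.update_of_ne hx]
  refine ⟨P', fun x y hxy => ?_, h2, fun v => ?_⟩
  · by_cases h : x = a ∧ y = b
    · obtain ⟨rfl, rfl⟩ := h
      rw [h1]; exact hq
    · rw [h2 x y h]; exact hP x y hxy
  · have hsup : v ∈ (P a b).support ↔ v = a ∨ v = b := by
      revert hl
      generalize P a b = r
      intro hl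
      cases r with
      | nil => simp at hl
      | @cons _ c _ hac r =>
        cases r with
        | nil => simp
        | cons _ _ => simp at hl
    rw [load_eq, load_eq, ← add_sum_erase univ _ (mem_univ (a, b)),
      ← add_sum_erase univ (fun p : V × V => if p.1 ≠ p.2 ∧ v ∈ (P p.1 p.2).support then 1 else 0)
        (mem_univ (a, b))]
    have h3 : ∑ p ∈ univ.erase (a, b), (if p.1 ≠ p.2 ∧ v ∈ (P' p.1 p.2).support then 1 else 0) =
        ∑ p ∈ univ.erase (a, b), (if p.1 ≠ p.2 ∧ v ∈ (P p.1 p.2).support then 1 else 0) := by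
      refine sum_congr rfl fun p hp => ?_
      rw [h2 p.1 p.2 fun h => ?_]
      rw [mem_erase] at hp
      exact hp.1 (Prod.ext h.1 h.2)
    rw [h3]
    have h4 : (if (a, b).1 ≠ (a, b).2 ∧ v ∈ (P (a, b).1 (a, b).2).support then 1 else 0) =
        (if v = a then 1 else 0) + (if v = b then 1 else 0) := by
      change (if a ≠ b ∧ v ∈ (P a b).support then 1 else 0) = _
      simp only [hsup]
      by_cases h5 : v = a
      · subst h5; simp [hab]
      · by_cases h6 : v = b
        · subst h6; simp [hab, h5]
        · simp [h5, h6]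
    have h5 : (if (a, b).1 ≠ (a, b).2 ∧ v ∈ (P' (a, b).1 (a, b).2).support then 1 else 0) =
        (if v ∈ q.support then 1 else 0) := by
      change (if a ≠ b ∧ v ∈ (P' a b).support then 1 else 0) = _
      rw [h1]
      simp [hab]
    rw [h4, h5]
    ring

/-- **Half-integral corrections are as good as integral ones.** -/
theorem half_fix [Fintype V] [DecidableEq V] {G : SimpleGraph V} (C : ℕ) : ∀ (m : ℕ)
    (P : ∀ x y : V, G.Walk x y) (_ : Paths P) (t : Sym2 V → ℕ)
    (_ : ∀ e, t e ≠ 0 → e ∈ G.edgeSet) (_ : ∀ x y, Odd (t s(x, y)) → (P x y).length = 1)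
    (_ : ∀ v, 2 * load P v + ∑ e ∈ univ.filter (fun e : Sym2 V => v ∈ e), t e = 2 * C)
    (_ : (univ.filter fun e : Sym2 V => Odd (t e)).card = m),
    ∃ (P' : ∀ x y : V, G.Walk x y) (K : Sym2 V → ℕ), Paths P' ∧
      (∀ x y, ¬ G.Adj x y → P' x y = P x y) ∧ (∀ e, 2 * K e ≤ t e + 1) ∧
      ∀ v, load P' v + ∑ e ∈ univ.filter (fun e : Sym2 V => v ∈ e), K e = C := by
  classical
  intro m
  induction m using Nat.strong_induction_on with
  | _ m IH =>
  intro P hP t ht hdir hC hm
  by_cases h0 : ∀ e, ¬ Odd (t e)
  · refine ⟨P, fun e => t e / 2, hP, fun _ _ _ => rfl, fun e => by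
      change 2 * (t e / 2) ≤ t e + 1
      omega, fun v => ?_⟩
    have h1 : ∑ e ∈ univ.filter (fun e : Sym2 V => v ∈ e), t e =
        2 * ∑ e ∈ univ.filter (fun e : Sym2 V => v ∈ e), t e / 2 := by
      rw [mul_sum]
      refine sum_congr rfl fun e _ => ?_
      have := h0 e
      rw [Nat.not_odd_iff_even] at this
      obtain ⟨k, hk⟩ := this
      omega
    have h2 := hC v
    change load P v + ∑ e ∈ univ.filter (fun e : Sym2 V => v ∈ e), t e / 2 = C
    omega
  push Not at h0
  obtain ⟨e0, he0⟩ := h0
  have hne0 : ∀ e, Odd (t e) → t e ≠ 0 := by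
    rintro e ⟨k, hk⟩
    omega
  induction e0 with
  | _ a b =>
  have hGab : G.Adj a b := ht _ (hne0 _ he0)
  -- the graph of odd edges
  let H : SimpleGraph V :=
    { Adj := fun u v => Odd (t s(u, v))
      symm := ⟨fun u v h => by rw [Sym2.eq_swap]; exact h⟩
      loopless := ⟨fun u hu => by
        have h1 : G.Adj u u := ht _ (hne0 _ hu)
        exact h1.ne rfl⟩ }
  have hHG : H ≤ G := fun u v h => ht _ (hne0 _ h)
  have hev : ∀ v, Even (H.degree v) := by
    intro v
    have h1 : Even (∑ e ∈ univ.filter (fun e : Sym2 V => v ∈ e), t e) := by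
      have := hC v
      exact ⟨C - load P v, by omega⟩
    rw [Finset.even_sum_iff_even_card_odd] at h1
    have h2 : ((univ.filter (fun e : Sym2 V => v ∈ e)).filter fun e => Odd (t e)).card =
        H.degree v := by
      rw [← SimpleGraph.card_incidenceFinset_eq_degree]
      congr 1
      ext e
      rw [mem_filter, mem_filter, SimpleGraph.mem_incidenceFinset, SimpleGraph.incidenceSet]
      induction e with
      | _ c d =>
        simp only [mem_univ, true_and, Set.mem_ofPred_eq, SimpleGraph.mem_edgeSet]
        exact and_comm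
    rw [← h2]
    exact h1
  obtain ⟨q0⟩ := reach_of_even H hev (show H.Adj a b from he0)
  set H' := H.deleteEdges {s(a, b)} with hH'
  have hH'H : H' ≤ H := SimpleGraph.deleteEdges_le _
  let q1 := q0.toPath
  let q : G.Walk a b := (q1 : H'.Walk a b).mapLe (hH'H.trans hHG)
  have hq : q.IsPath := (SimpleGraph.Walk.isPath_mapLe _).2 q1.2
  have hqe : ∀ e ∈ q.edges, Odd (t e) ∧ e ≠ s(a, b) := by
    intro e he
    have h1 : e ∈ (q1 : H'.Walk a b).edges := by
      simpa [q, SimpleGraph.Walk.edges_mapLe_eq_edges] using he
    have h2 := SimpleGraph.Walk.edges_subset_edgeSet _ h1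
    rw [hH', SimpleGraph.edgeSet_deleteEdges, Set.mem_sdiff, Set.mem_singleton_iff] at h2
    refine ⟨?_, h2.2⟩
    have h3 := h2.1
    induction e with
    | _ c d => exact h3
  obtain ⟨P', hP', hPP, hload⟩ := reroute P hP hGab.ne (hdir a b he0) q hq
  let t' : Sym2 V → ℕ := fun e => if e ∈ q.edges then t e - 1 else if e = s(a, b) then t e + 1
    else t e
  have ht'odd : ∀ e, Odd (t' e) → Odd (t e) ∧ e ∉ q.edges ∧ e ≠ s(a, b) := by
    intro e he
    by_cases h1 : e ∈ q.edges
    · exfalso
      simp only [t', if_pos h1] at he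
      have h2 := (hqe e h1).1
      obtain ⟨k, hk⟩ := h2
      obtain ⟨l, hl⟩ := he
      omega
    · by_cases h2 : e = s(a, b)
      · exfalso
        simp only [t', if_neg h1, if_pos h2] at he
        rw [h2] at he
        obtain ⟨k, hk⟩ := he0
        obtain ⟨l, hl⟩ := he
        omega
      · simp only [t', if_neg h1, if_neg h2] at he
        exact ⟨he, h1, h2⟩
  have habq : s(a, b) ∉ q.edges := fun h => (hqe _ h).2 rfl
  obtain ⟨P'', K, hP'', hPP', hK, hCK⟩ := IH (univ.filter fun e : Sym2 V => Odd (t' e)).card (by
      rw [← hm]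
      refine card_lt_card ?_
      rw [ssubset_iff_of_subset fun e he => ?_]
      · refine ⟨s(a, b), by simp [he0], fun h => ?_⟩
        rw [mem_filter] at h
        exact (ht'odd _ h.2).2.2 rfl
      · rw [mem_filter] at he ⊢
        exact ⟨mem_univ _, (ht'odd e he.2).1⟩) P' hP' t'
    (by
      intro e he
      by_cases h1 : e ∈ q.edges
      · exact ht e (hne0 e (hqe e h1).1)
      · by_cases h2 : e = s(a, b)
        · rw [h2]; exact hGab
        · simp only [t', if_neg h1, if_neg h2] at he
          exact ht e he)
    (by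
      intro x y hxy
      obtain ⟨h1, h2, h3⟩ := ht'odd _ hxy
      rw [hPP x y fun h => h3 (by rw [h.1, h.2])]
      exact hdir x y h1)
    (by
      intro v
      have h1 := hC v
      have h2 := hload v
      have h3 := count_at q hq v
      have h4 : ∑ e ∈ univ.filter (fun e : Sym2 V => v ∈ e), t' e +
          (∑ e ∈ univ.filter (fun e : Sym2 V => v ∈ e), if e ∈ q.edges then 1 else 0) =
          ∑ e ∈ univ.filter (fun e : Sym2 V => v ∈ e), t e +
          ((if v = a then 1 else 0) + (if v = b then 1 else 0)) := by
        have h5 : ((if v = a then 1 else 0) + (if v = b then 1 else 0) : ℕ) =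
            ∑ e ∈ univ.filter (fun e : Sym2 V => v ∈ e), if e = s(a, b) then 1 else 0 := by
          rw [sum_ite_eq']
          simp only [mem_filter, mem_univ, true_and, Sym2.mem_iff]
          have := hGab.ne
          by_cases h5 : v = a
          · subst h5; simp [this]
          · by_cases h6 : v = b
            · subst h6; simp [h5]
            · simp [h5, h6]
        rw [h5, ← sum_add_distrib, ← sum_add_distrib]
        refine sum_congr rfl fun e _ => ?_
        by_cases h6 : e ∈ q.edges
        · have h7 := hne0 e (hqe e h6).1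
          have h8 := (hqe e h6).2
          simp only [t', if_pos h6, if_neg h8]
          omega
        · simp only [t', if_neg h6]
          by_cases h7 : e = s(a, b)
          · simp [h7]
          · simp [h7]
      omega) rfl
  refine ⟨P'', K, hP'', fun x y hxy => ?_, fun e => ?_, hCK⟩
  · rw [hPP' x y hxy, hPP x y]
    rintro ⟨rfl, rfl⟩
    exact hxy hGab
  · have h1 := hK e
    by_cases h2 : e ∈ q.edges
    · simp only [t', if_pos h2] at h1
      omega
    · by_cases h3 : e = s(a, b)
      · simp only [t', if_neg h2, if_pos h3] at h1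
        rw [← h3] at he0
        obtain ⟨k, hk⟩ := he0
        omega
      · simp only [t', if_neg h2, if_neg h3] at h1
        exact h1

end Pool.Agent.UPS.A3
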